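import Mathlib

open Topology Polynomial

namespace Pool.Agent.Results.MP_17a4b7_gt.RealTypes

section definitions

open scoped ContDiff Matrix ComplexConjugate

variable {n : ℕ}

/-- a real matrix viewed as a complex matrix -/
noncomputable def cplx (A : Matrix (Fin n) (Fin n) ℝ) : Matrix (Fin n) (Fin n) ℂ :=
  A.map (fun t : ℝ => (t : ℂ))

/-- A smooth field of endomorphisms on `ℝⁿ`: all matrix entries are `C^∞`. -/
def SmoothField (L : (Fin n → ℝ) → Matrix (Fin n) (Fin n) ℝ) : Prop :=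
  ∀ i j, ContDiff ℝ ∞ (fun x => L x i j)

/-- The Nijenhuis torsion
`N_L(v,w) = [Lv,Lw] - L([Lv,w] + [v,Lw]) + L²[v,w]` at the point `x`. -/
noncomputable def torsion (L : (Fin n → ℝ) → Matrix (Fin n) (Fin n) ℝ)
    (v w : (Fin n → ℝ) → (Fin n → ℝ)) (x : Fin n → ℝ) : Fin n → ℝ :=
  VectorField.lieBracket ℝ (fun y => L y *ᵥ v y) (fun y => L y *ᵥ w y) x
    - L x *ᵥ (VectorField.lieBracket ℝ (fun y => L y *ᵥ v y) w x
        + VectorField.lieBracket ℝ v (fun y => L y *ᵥ w y) x)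
    + L x *ᵥ (L x *ᵥ VectorField.lieBracket ℝ v w x)

/-- `L` is a (smooth) Nijenhuis operator on `ℝⁿ`. -/
def IsNijenhuis (L : (Fin n → ℝ) → Matrix (Fin n) (Fin n) ℝ) : Prop :=
  SmoothField L ∧ ∀ v w : (Fin n → ℝ) → (Fin n → ℝ), ContDiff ℝ ∞ v → ContDiff ℝ ∞ w →
    ∀ x, torsion L v w x = 0

/-- The number of Jordan blocks of size (exactly) `s ≥ 1` with eigenvalue `μ` of a complex matrix. -/
noncomputable def jordanBlocks (A : Matrix (Fin n) (Fin n) ℂ) (μ : ℂ) (s : ℕ) : ℤ :=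
  (((A - μ • 1) ^ (s - 1)).rank : ℤ) - 2 * (((A - μ • 1) ^ s).rank : ℤ)
    + (((A - μ • 1) ^ (s + 1)).rank : ℤ)

/-- Two real matrices have the same algebraic type (Segre characteristic). -/
def SameType (A B : Matrix (Fin n) (Fin n) ℝ) : Prop :=
  ∃ σ : spectrum ℂ (cplx A) ≃ spectrum ℂ (cplx B),
    (∀ μ : spectrum ℂ (cplx A), (μ : ℂ).im = 0 ↔ (σ μ : ℂ).im = 0) ∧
    (∀ μ ν : spectrum ℂ (cplx A), (ν : ℂ) = conj (μ : ℂ) → (σ ν : ℂ) = conj (σ μ : ℂ)) ∧
    ∀ μ : spectrum ℂ (cplx A), ∀ s : ℕ, 1 ≤ s →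
      jordanBlocks (cplx A) μ s = jordanBlocks (cplx B) (σ μ) s

/-- The type of `A` is realisable: some compactly supported Nijenhuis operator on `ℝⁿ` has the
type of `A` at every point of some domain. -/
def Realisable (A : Matrix (Fin n) (Fin n) ℝ) : Prop :=
  ∃ L : (Fin n → ℝ) → Matrix (Fin n) (Fin n) ℝ, IsNijenhuis L ∧ HasCompactSupport L ∧
    ∃ U : Set (Fin n → ℝ), IsOpen U ∧ IsConnected U ∧ ∀ x ∈ U, SameType (L x) A

end definitions



section conn

variable {𝔸 : Type*} [NormedRing 𝔸] [NormedAlgebra ℝ 𝔸]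

/-- smooth paths of pairs `(l, k)` with `(l - k) k' = 0`. -/
def Conn (c : ℝ) (K : 𝔸) (c' : ℝ) (K' : 𝔸) : Prop :=
  ∃ (l : ℝ → ℝ) (k : ℝ → 𝔸), ContDiff ℝ (⊤ : ℕ∞) l ∧ ContDiff ℝ (⊤ : ℕ∞) k ∧
    (∀ r ≤ 0, l r = c ∧ k r = K) ∧ (∀ r, 1 ≤ r → l r = c' ∧ k r = K') ∧
    ∀ r, (l r • (1 : 𝔸) - k r) * deriv k r = 0

lemma deriv_zero_of_const_left {E : Type*} [NormedAddCommGroup E] [NormedSpace ℝ E] {f : ℝ → E}
    {c : E} {a : ℝ} (hf : Differentiable ℝ f) (h : ∀ r ≤ a, f r = c) {r : ℝ} (hr : r ≤ a) :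
    deriv f r = 0 := by
  have h1 : HasDerivWithinAt f (deriv f r) (Set.Iic r) r := (hf r).hasDerivAt.hasDerivWithinAt
  have h2 : HasDerivWithinAt f 0 (Set.Iic r) r := by
    have h3 : HasDerivWithinAt (fun _ : ℝ => c) 0 (Set.Iic r) r := hasDerivWithinAt_const _ _ _
    exact h3.congr (fun x hx => h x (le_trans hx hr)) (h r hr)
  exact (uniqueDiffWithinAt_Iic r).eq_deriv _ h1 h2

lemma deriv_zero_of_const_right {E : Type*} [NormedAddCommGroup E] [NormedSpace ℝ E] {f : ℝ → E}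
    {c : E} {a : ℝ} (hf : Differentiable ℝ f) (h : ∀ r, a ≤ r → f r = c) {r : ℝ} (hr : a ≤ r) :
    deriv f r = 0 := by
  have h1 : HasDerivWithinAt f (deriv f r) (Set.Ici r) r := (hf r).hasDerivAt.hasDerivWithinAt
  have h2 : HasDerivWithinAt f 0 (Set.Ici r) r := by
    have h3 : HasDerivWithinAt (fun _ : ℝ => c) 0 (Set.Ici r) r := hasDerivWithinAt_const _ _ _
    exact h3.congr (fun x hx => h x (le_trans hr hx)) (h r hr)
  exact (uniqueDiffWithinAt_Ici r).eq_deriv _ h1 h2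

lemma Conn.trans {c c' c'' : ℝ} {K K' K'' : 𝔸} (h1 : Conn c K c' K') (h2 : Conn c' K' c'' K'') :
    Conn c K c'' K'' := by
  obtain ⟨l1, k1, hl1, hk1, ha1, hb1, hd1⟩ := h1
  obtain ⟨l2, k2, hl2, hk2, ha2, hb2, hd2⟩ := h2
  have e1 : ContDiff ℝ (⊤ : ℕ∞) (fun r : ℝ => 2 * r) := by fun_prop
  have e2 : ContDiff ℝ (⊤ : ℕ∞) (fun r : ℝ => 2 * r - 1) := by fun_prop
  refine ⟨fun r => l1 (2 * r) + l2 (2 * r - 1) - c', fun r => k1 (2 * r) + k2 (2 * r - 1) - K',
    ((hl1.comp e1).add (hl2.comp e2)).sub contDiff_const,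
    ((hk1.comp e1).add (hk2.comp e2)).sub contDiff_const, ?_, ?_, ?_⟩
  · intro r hr
    have h3 := ha1 (2 * r) (by linarith)
    have h4 := ha2 (2 * r - 1) (by linarith)
    simp only [h3.1, h3.2, h4.1, h4.2]
    constructor <;> abel
  · intro r hr
    have h3 := hb1 (2 * r) (by linarith)
    have h4 := hb2 (2 * r - 1) (by linarith)
    simp only [h3.1, h3.2, h4.1, h4.2]
    constructor <;> abel
  · intro r
    have dk1 : Differentiable ℝ k1 := hk1.differentiable (by simp)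
    have dk2 : Differentiable ℝ k2 := hk2.differentiable (by simp)
    have hd : deriv (fun r => k1 (2 * r) + k2 (2 * r - 1) - K') r
        = (2:ℝ) • deriv k1 (2 * r) + (2:ℝ) • deriv k2 (2 * r - 1) := by
      have g1 : HasDerivAt (fun r : ℝ => k1 (2 * r)) ((2:ℝ) • deriv k1 (2 * r)) r := by
        have h5 : HasDerivAt (fun r : ℝ => 2 * r) 2 r := by
          simpa using (hasDerivAt_id r).const_mul 2
        exact (dk1 (2 * r)).hasDerivAt.scomp r h5
      have g2 : HasDerivAt (fun r : ℝ => k2 (2 * r - 1)) ((2:ℝ) • deriv k2 (2 * r - 1)) r := by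
        have h5 : HasDerivAt (fun r : ℝ => 2 * r - 1) 2 r := by
          simpa using ((hasDerivAt_id r).const_mul 2).sub_const 1
        exact (dk2 (2 * r - 1)).hasDerivAt.scomp r h5
      exact ((g1.add g2).sub_const K').deriv
    rw [hd]
    rcases le_total r (1/2) with hr | hr
    · have h4 := ha2 (2 * r - 1) (by linarith)
      have h5 : deriv k2 (2 * r - 1) = 0 :=
        deriv_zero_of_const_left dk2 (fun s hs => (ha2 s hs).2) (by linarith)
      have h6 := hd1 (2 * r)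
      simp only [h4.1, h4.2, h5, smul_zero, add_zero]
      have e3 : (l1 (2 * r) + c' - c') = l1 (2 * r) := by ring
      have e4 : (k1 (2 * r) + K' - K') = k1 (2 * r) := by abel
      rw [e3, e4, mul_smul_comm, h6, smul_zero]
    · have h4 := hb1 (2 * r) (by linarith)
      have h5 : deriv k1 (2 * r) = 0 :=
        deriv_zero_of_const_right dk1 (fun s hs => (hb1 s hs).2) (by linarith)
      have h6 := hd2 (2 * r - 1)
      simp only [h4.1, h4.2, h5, smul_zero, zero_add]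
      have e3 : (c' + l2 (2 * r - 1) - c') = l2 (2 * r - 1) := by ring
      have e4 : (K' + k2 (2 * r - 1) - K') = k2 (2 * r - 1) := by abel
      rw [e3, e4, mul_smul_comm, h6, smul_zero]

lemma Conn.refl (c : ℝ) (K : 𝔸) : Conn c K c K :=
  ⟨fun _ => c, fun _ => K, contDiff_const, contDiff_const, fun _ _ => ⟨rfl, rfl⟩,
    fun _ _ => ⟨rfl, rfl⟩, fun r => by simp⟩

/-- moving the scalar alone -/
lemma Conn.move (c c' : ℝ) (K : 𝔸) : Conn c K c' K := by
  refine ⟨fun r => c + (c' - c) * Real.smoothTransition r, fun _ => K, ?_, contDiff_const, ?_, ?_, ?_⟩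
  · exact contDiff_const.add (contDiff_const.mul Real.smoothTransition.contDiff)
  · intro r hr
    simp [Real.smoothTransition.zero_of_nonpos hr]
  · intro r hr
    simp [Real.smoothTransition.one_of_one_le hr]
  · intro r; simp

lemma hasDerivAt_st (r : ℝ) : HasDerivAt Real.smoothTransition (deriv Real.smoothTransition r) r :=
  ((Real.smoothTransition.contDiff (n := 1)).differentiable (by simp) r).hasDerivAt

/-- killing a square zero part -/
lemma Conn.kill (c : ℝ) (K Δ : 𝔸) (h1 : (c • (1 : 𝔸) - K) * Δ = 0) (h2 : Δ * Δ = 0) :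
    Conn c K c (K + Δ) := by
  refine ⟨fun _ => c, fun r => K + Real.smoothTransition r • Δ, contDiff_const, ?_, ?_, ?_, ?_⟩
  · exact contDiff_const.add (Real.smoothTransition.contDiff.smul contDiff_const)
  · intro r hr
    simp [Real.smoothTransition.zero_of_nonpos hr]
  · intro r hr
    simp [Real.smoothTransition.one_of_one_le hr]
  · intro r
    have hd : deriv (fun r => K + Real.smoothTransition r • Δ) r
        = deriv Real.smoothTransition r • Δ :=
      (((hasDerivAt_st r).smul_const Δ).const_add K).deriv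
    rw [hd, mul_smul_comm]
    have h3 : (c • (1 : 𝔸) - (K + Real.smoothTransition r • Δ)) * Δ = 0 := by
      have : (c • (1 : 𝔸) - (K + Real.smoothTransition r • Δ)) * Δ
          = (c • (1 : 𝔸) - K) * Δ - Real.smoothTransition r • (Δ * Δ) := by
        rw [← sub_sub, sub_mul, smul_mul_assoc]
      rw [this, h1, h2]; simp
    rw [h3, smul_zero]

/-- moving an eigenvalue to zero together with the scalar -/
lemma Conn.scale (c : ℝ) (P K1 : 𝔸) (hP : P * P = P) (h : K1 * P = 0) :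
    Conn c (c • P + K1) 0 K1 := by
  refine ⟨fun r => c * (1 - Real.smoothTransition r), fun r => (c * (1 - Real.smoothTransition r)) • P + K1,
    ?_, ?_, ?_, ?_, ?_⟩
  · exact contDiff_const.mul (contDiff_const.sub Real.smoothTransition.contDiff)
  · exact ((contDiff_const.mul (contDiff_const.sub Real.smoothTransition.contDiff)).smul
      contDiff_const).add contDiff_const
  · intro r hr
    simp [Real.smoothTransition.zero_of_nonpos hr]
  · intro r hr
    simp [Real.smoothTransition.one_of_one_le hr]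
  · intro r
    have hd : deriv (fun r => (c * (1 - Real.smoothTransition r)) • P + K1) r
        = (c * (- deriv Real.smoothTransition r)) • P := by
      have h1 : HasDerivAt (fun r => c * (1 - Real.smoothTransition r))
          (c * (- deriv Real.smoothTransition r)) r := by
        have := ((hasDerivAt_st r).const_sub 1).const_mul c
        simpa using this
      exact ((h1.smul_const P).add_const K1).deriv
    rw [hd, mul_smul_comm]
    have h3 : ((c * (1 - Real.smoothTransition r)) • (1 : 𝔸) -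
        ((c * (1 - Real.smoothTransition r)) • P + K1)) * P = 0 := by
      rw [sub_mul, add_mul, smul_mul_assoc, smul_mul_assoc, one_mul, hP, h]; abel
    rw [h3, smul_zero]

end conn

section nilp

variable {W : Type*} [NormedAddCommGroup W] [NormedSpace ℝ W] [FiniteDimensional ℝ W]

/-- projection onto the kernel of an operator -/
lemma exists_proj (B : W →L[ℝ] W) : ∃ π : W →L[ℝ] W, B * π = 0 ∧ ∀ x, B x = 0 → π x = x := by
  obtain ⟨g, hg⟩ := LinearMap.exists_leftInverse_of_injective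
    (LinearMap.ker (B : W →ₗ[ℝ] W)).subtype (Submodule.ker_subtype _)
  refine ⟨LinearMap.toContinuousLinearMap ((LinearMap.ker (B : W →ₗ[ℝ] W)).subtype ∘ₗ g), ?_, ?_⟩
  · ext x
    simp only [mul_apply_eq_comp, LinearMap.coe_toContinuousLinearMap', LinearMap.comp_apply]
    exact LinearMap.mem_ker.mp (g x).2
  · intro x hx
    have h1 := LinearMap.congr_fun hg ⟨x, LinearMap.mem_ker.mpr hx⟩
    simp only [LinearMap.comp_apply, LinearMap.id_apply] at h1
    simp only [LinearMap.coe_toContinuousLinearMap', LinearMap.comp_apply]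
    have h2 : (LinearMap.ker (B : W →ₗ[ℝ] W)).subtype ⟨x, LinearMap.mem_ker.mpr hx⟩ = x := rfl
    rw [h2] at h1
    rw [h1]; rfl

lemma conn_kill_nilp (c : ℝ) (P K1 : W →L[ℝ] W) (h : K1 * P = 0) (a : ℕ) :
    ∀ N : W →L[ℝ] W, N ^ (a + 1) = 0 → P * N = N → Conn c (c • P + K1 + N) c (c • P + K1) := by
  induction a with
  | zero =>
    intro N hN _
    rw [zero_add, pow_one] at hN
    rw [hN, add_zero]
    exact Conn.refl _ _
  | succ a ih =>
    intro N hN hPN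
    obtain ⟨π, hπ1, hπ2⟩ := exists_proj (N * N)
    have e1 : N * (N * π) = 0 := by rw [← mul_assoc]; exact hπ1
    -- π N π = N π
    have e2 : π * (N * π) = N * π := by
      ext x
      have : (N * N) ((N * π) x) = 0 := by
        have h3 : (N * N) ((N * π) x) = (N * (N * (N * π))) x := rfl
        rw [h3, e1, mul_zero]; rfl
      exact hπ2 _ this
    have hstep : Conn c (c • P + K1 + N) c (c • P + K1 + N + (-(N * π))) := by
      apply Conn.kill
      · have h4 : P * (N * π) = N * π := by rw [← mul_assoc, hPN]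
        have h5 : K1 * (N * π) = 0 := by rw [← h4, ← mul_assoc, h, zero_mul]
        have : (c • (1 : W →L[ℝ] W) - (c • P + K1 + N)) * (-(N * π))
            = -(c • (N * π) - (c • (P * (N * π)) + K1 * (N * π) + N * (N * π))) := by
          rw [mul_neg, sub_mul, add_mul, add_mul, smul_mul_assoc, smul_mul_assoc, one_mul]
        rw [this, h4, h5, e1]
        simp
      · have : -(N * π) * -(N * π) = N * (π * (N * π)) := by
          rw [neg_mul_neg, mul_assoc]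
        rw [this, e2, e1]
    have hN' : (N + -(N * π)) ^ (a + 1) = 0 := by
      have hp : (1 - π) * (N * (1 - π)) = (1 - π) * N := by
        have : (1 - π) * (N * (1 - π)) = (1 - π) * N - (N * π - π * (N * π)) := by noncomm_ring
        rw [this, e2, sub_self, sub_zero]
      have hform : ∀ j, (N * (1 - π)) ^ (j + 1) = N * ((1 - π) * N ^ j) := by
        intro j
        induction j with
        | zero => simp
        | succ j ihj =>
          rw [pow_succ', ihj, pow_succ' N j]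
          have : N * (1 - π) * (N * ((1 - π) * N ^ j))
              = N * (((1 - π) * (N * (1 - π))) * N ^ j) := by noncomm_ring
          rw [this, hp]; noncomm_ring
      have e3 : π * N ^ a = N ^ a := by
        ext x
        have h7 : (N * N) ((N ^ a) x) = 0 := by
          have h8 : (N * N) ((N ^ a) x) = (N ^ (a + 1 + 1)) x := by
            rw [pow_succ', pow_succ']; rfl
          rw [h8, hN]; rfl
        exact hπ2 _ h7
      have e4 : N + -(N * π) = N * (1 - π) := by noncomm_ring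
      rw [e4, hform a, sub_mul, one_mul, e3, sub_self, mul_zero]
    have h6 : c • P + K1 + N + (-(N * π)) = c • P + K1 + (N + -(N * π)) := by abel
    rw [h6] at hstep
    refine hstep.trans (ih _ hN' ?_)
    rw [mul_add, hPN, mul_neg, ← mul_assoc, hPN]





lemma aeval_mul_idem {A : Type*} [Ring A] [Algebra ℝ A] (K E : A) (hE : E * E = E)
    (hc : Commute K E) (q : ℝ[X]) : aeval (K * E) q * E = aeval K q * E := by
  induction q using Polynomial.induction_on' with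
  | add p q hp hq => rw [map_add, map_add, add_mul, add_mul, hp, hq]
  | monomial n a =>
    rw [aeval_monomial, aeval_monomial, hc.mul_pow, mul_assoc, mul_assoc, mul_assoc]
    congr 2
    induction n with
    | zero => simp
    | succ n ih => rw [pow_succ, mul_assoc, hE, ih]

theorem conn_zero : ∀ (k : ℕ) (s : Multiset ℝ) (K : W →L[ℝ] W),
    (s.filter (· ≠ 0)).card ≤ k → aeval K (s.map (fun c => X - C c)).prod = 0 →
    ∀ c, Conn c K 0 0 := by
  intro k
  induction k with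
  | zero =>
    intro s K hs h c
    have h1 : ∀ x ∈ s, x = 0 := by
      have h2 : s.filter (· ≠ 0) = 0 := by
        rw [← Multiset.card_eq_zero]; omega
      rw [Multiset.filter_eq_nil] at h2
      intro x hx
      by_contra h3
      exact h2 x hx h3
    have h2 : s = Multiset.replicate (Multiset.card s) 0 := Multiset.eq_replicate_card.mpr h1
    rw [h2, Multiset.map_replicate, Multiset.prod_replicate, map_zero, sub_zero, map_pow, aeval_X] at h
    refine (Conn.move c 0 K).trans ?_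
    have h3 := conn_kill_nilp (0:ℝ) (1 : W →L[ℝ] W) 0 (by simp) (Multiset.card s) K
      (by rw [pow_succ, h, zero_mul]) (by simp)
    simpa using h3
  | succ k ih =>
    intro s K hs h c
    by_cases hne : ∃ c1 ∈ s, c1 ≠ 0
    swap
    · push Not at hne
      apply ih s K _ h c
      have h2 : s.filter (· ≠ 0) = 0 := by
        rw [Multiset.filter_eq_nil]
        intro x hx h3
        exact h3 (hne x hx)
      rw [h2]; simp
    obtain ⟨c1, hc1, hc10⟩ := hne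
    set a := Multiset.count c1 s with ha
    have ha1 : 1 ≤ a := Multiset.one_le_count_iff_mem.mpr hc1
    set s' := s.filter (fun x => ¬ (c1 = x)) with hs'
    have hsplit : s = Multiset.replicate a c1 + s' := by
      rw [ha, ← Multiset.filter_eq, hs', Multiset.filter_add_not]
    set q : ℝ[X] := (s'.map (fun c => X - C c)).prod with hq
    have hprod : (s.map (fun c => X - C c)).prod = (X - C c1) ^ a * q := by
      conv_lhs => rw [hsplit]
      rw [Multiset.map_add, Multiset.prod_add, Multiset.map_replicate, Multiset.prod_replicate]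
    have hcop : IsCoprime ((X - C c1) ^ a) q := by
      apply IsCoprime.pow_left
      rw [hq]
      apply Multiset.prod_induction (fun r => IsCoprime (X - C c1) r)
      · intro x y hx hy; exact hx.mul_right hy
      · exact isCoprime_one_right
      · intro r hr
        obtain ⟨x, hx, rfl⟩ := Multiset.mem_map.mp hr
        have hx1 : c1 ≠ x := by
          rw [hs', Multiset.mem_filter] at hx; exact hx.2
        exact Polynomial.isCoprime_X_sub_C_of_isUnit_sub (sub_ne_zero.mpr hx1).isUnit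
    obtain ⟨u, v, huv⟩ := hcop
    set P : W →L[ℝ] W := aeval K (v * q) with hP
    have hP1 : (1 : W →L[ℝ] W) - P = aeval K (u * (X - C c1) ^ a) := by
      have h3 : (aeval K) (u * (X - C c1) ^ a) + aeval K (v * q) = 1 := by
        rw [← map_add, huv, map_one]
      rw [← h3, hP]; abel
    have hz : aeval K ((X - C c1) ^ a * q) = 0 := by rw [← hprod]; exact h
    have hPE : P * (1 - P) = 0 := by
      rw [hP1, hP, ← map_mul]
      have : v * q * (u * (X - C c1) ^ a) = (X - C c1) ^ a * q * (u * v) := by ring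
      rw [this, map_mul, hz, zero_mul]
    have hPP : P * P = P := by
      rw [mul_sub, mul_one, sub_eq_zero] at hPE; exact hPE.symm
    have hKP : Commute K P := by
      rw [hP]
      have h4 : K = aeval K (X : ℝ[X]) := (aeval_X K).symm
      have h5 : Commute (aeval K (X : ℝ[X])) (aeval K (v * q)) := by
        unfold Commute SemiconjBy
        rw [← map_mul, ← map_mul, mul_comm]
      rw [← h4] at h5
      exact h5
    set N : W →L[ℝ] W := (K - c1 • 1) * P with hN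
    set K1 : W →L[ℝ] W := K * (1 - P) with hK1
    have hdec : K = c1 • P + K1 + N := by
      rw [hN, hK1, sub_mul, smul_mul_assoc, one_mul, mul_sub, mul_one]; abel
    have hNa : N ^ a = 0 := by
      have h4 : N = aeval K ((X - C c1) * (v * q)) := by
        rw [hN, map_mul, ← hP, map_sub, aeval_X, aeval_C, Algebra.algebraMap_eq_smul_one]
      rw [h4, ← map_pow]
      obtain ⟨b, hb⟩ : ∃ b, a = b + 1 := ⟨a - 1, by omega⟩
      have : ((X - C c1) * (v * q)) ^ a = ((X - C c1) ^ a * q) * (v ^ a * q ^ b) := by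
        rw [mul_pow, mul_pow]
        have : q ^ a = q * q ^ b := by rw [hb, pow_succ']
        rw [this]; ring
      rw [this, map_mul, hz, zero_mul]
    have hK1P : K1 * P = 0 := by
      rw [hK1, mul_assoc, sub_mul, one_mul, hPP, sub_self, mul_zero]
    have hPN : P * N = N := by
      rw [hN]
      have h4 : P * ((K - c1 • 1) * P) = (K - c1 • 1) * (P * P) := by
        have h4' : P * (K - c1 • 1) = (K - c1 • 1) * P := by
          rw [mul_sub, sub_mul, hKP.eq, mul_smul_comm, smul_mul_assoc, mul_one, one_mul]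
        rw [← mul_assoc, h4', mul_assoc]
      rw [h4, hPP]
    have hK1ann : aeval K1 ((0 ::ₘ s').map (fun c => X - C c)).prod = 0 := by
      rw [Multiset.map_cons, Multiset.prod_cons, map_zero, sub_zero, ← hq, mul_comm, map_mul, aeval_X]
      have hE : (1 - P) * (1 - P) = 1 - P := by
        rw [mul_sub, mul_one, sub_mul, one_mul, hPP]; abel
      have hcE : Commute K (1 - P) := (Commute.one_right K).sub_right hKP
      have h5 : (1 - P) * K1 = K1 := by
        rw [hK1, ← mul_assoc, ← hcE.eq, mul_assoc, hE]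
      have h6 := aeval_mul_idem K (1 - P) hE hcE q
      rw [← hK1] at h6
      have h9 : aeval K1 q * K1 = aeval K1 q * (1 - P) * K1 := by
        rw [mul_assoc, h5]
      rw [h9, h6, hP1]
      have h7 : aeval K q * aeval K (u * (X - C c1) ^ a) = aeval K ((X - C c1) ^ a * q) * aeval K u := by
        rw [← map_mul, ← map_mul]; congr 1; ring
      rw [h7, hz, zero_mul, zero_mul]
    have hcard : ((0 ::ₘ s').filter (· ≠ 0)).card ≤ k := by
      rw [Multiset.filter_cons_of_neg _ (by simp)]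
      have h5 : (s.filter (· ≠ 0)) = (Multiset.replicate a c1).filter (· ≠ 0) + s'.filter (· ≠ 0) := by
        conv_lhs => rw [hsplit]
        rw [Multiset.filter_add]
      have h6 : ((Multiset.replicate a c1).filter (· ≠ 0)).card = a := by
        rw [Multiset.filter_eq_self.mpr, Multiset.card_replicate]
        intro x hx
        rw [Multiset.eq_of_mem_replicate hx]; exact hc10
      rw [h5, Multiset.card_add, h6] at hs
      omega
    have hfin := ih (0 ::ₘ s') K1 hcard hK1ann 0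
    have hkill : Conn c1 K c1 (c1 • P + K1) := by
      have h8 := conn_kill_nilp c1 P K1 hK1P a N (by rw [pow_succ, hNa, zero_mul]) hPN
      rwa [← hdec] at h8
    exact (Conn.move c c1 K).trans (hkill.trans ((Conn.scale c1 P K1 hPP hK1P).trans hfin))

end nilp



section tor

variable {E F : Type*} [NormedAddCommGroup E] [NormedSpace ℝ E] [NormedAddCommGroup F] [NormedSpace ℝ F]

/-- Nijenhuis torsion of a field of operators, as a tensor -/
noncomputable def tor (L : E → E →L[ℝ] E) (x a b : E) : E :=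
  fderiv ℝ L x (L x a) b - fderiv ℝ L x (L x b) a - L x (fderiv ℝ L x a b - fderiv ℝ L x b a)

lemma tor_related (f : E → F) (L : E → E →L[ℝ] E) (L' : F → F →L[ℝ] F) (x : E)
    (hf : ContDiffAt ℝ 2 f x) (hL : DifferentiableAt ℝ L x) (hL' : DifferentiableAt ℝ L' (f x))
    (h : ∀ᶠ y in 𝓝 x, (fderiv ℝ f y).comp (L y) = (L' (f y)).comp (fderiv ℝ f y)) (a b : E) :
    tor L' (f x) (fderiv ℝ f x a) (fderiv ℝ f x b) = fderiv ℝ f x (tor L x a b) := by
  have hfd : DifferentiableAt ℝ f x := hf.differentiableAt (by simp)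
  have hf' : DifferentiableAt ℝ (fderiv ℝ f) x :=
    (hf.fderiv_right (m := 1) (by norm_num)).differentiableAt (by simp)
  have hsymm : ∀ u v, fderiv ℝ (fderiv ℝ f) x u v = fderiv ℝ (fderiv ℝ f) x v u := by
    intro u v
    exact (hf.isSymmSndFDerivAt (by simp)).eq u v
  have key : ∀ v w, fderiv ℝ L' (f x) (fderiv ℝ f x v) (fderiv ℝ f x w)
      = fderiv ℝ (fderiv ℝ f) x v (L x w) + fderiv ℝ f x (fderiv ℝ L x v w)
        - L' (f x) (fderiv ℝ (fderiv ℝ f) x v w) := by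
    intro v w
    have h1 : HasFDerivAt (fun y => (fderiv ℝ f y).comp (L y)) _ x :=
      hf'.hasFDerivAt.clm_comp hL.hasFDerivAt
    have h2 : HasFDerivAt (fun y => (L' (f y)).comp (fderiv ℝ f y)) _ x :=
      (hL'.hasFDerivAt.comp x hfd.hasFDerivAt).clm_comp hf'.hasFDerivAt
    have h3 := h1.congr_of_eventuallyEq (h.mono fun y hy => hy.symm)
    have h4 := h3.unique h2
    have h5 := congrArg (fun T => T v w) h4
    simp only [add_apply, ContinuousLinearMap.comp_apply,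
      ContinuousLinearMap.compL_apply, ContinuousLinearMap.flip_apply, Function.comp] at h5
    rw [eq_sub_iff_add_eq]
    rw [add_comm, add_comm (fderiv ℝ (fderiv ℝ f) x v (L x w))]
    exact h5.symm
  have hx : ∀ v, L' (f x) (fderiv ℝ f x v) = fderiv ℝ f x (L x v) := by
    intro v
    have := congrArg (fun T => T v) h.self_of_nhds
    exact this.symm
  unfold tor
  rw [hx a, hx b, key, key, key, key]
  simp only [map_sub, map_add]
  rw [hsymm (L x a) (L x b), hx, hx, hsymm (L x a) b, hsymm (L x b) a, hsymm b a]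
  abel

end tor



section circle

variable {X F Y : Type*} [NormedAddCommGroup X] [NormedSpace ℝ X]
  [NormedAddCommGroup F] [NormedSpace ℝ F]
  [NormedAddCommGroup Y] [NormedSpace ℝ Y]

open ContinuousLinearMap in
/-- the differential of the polar map -/
noncomputable def Tm (e : F ≃L[ℝ] ℝ × Y) (p q : ℝ) :
    ((X × ℝ) × F) →L[ℝ] (((X × ℝ) × ℝ) × Y) :=
  ((((fst ℝ X ℝ).comp (fst ℝ (X × ℝ) F)).prod (p • ((snd ℝ X ℝ).comp (fst ℝ (X × ℝ) F))
      - q • (((fst ℝ ℝ Y).comp (e : F →L[ℝ] ℝ × Y)).comp (snd ℝ (X × ℝ) F)))).prod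
    (q • ((snd ℝ X ℝ).comp (fst ℝ (X × ℝ) F))
      + p • (((fst ℝ ℝ Y).comp (e : F →L[ℝ] ℝ × Y)).comp (snd ℝ (X × ℝ) F)))).prod
    (((snd ℝ ℝ Y).comp (e : F →L[ℝ] ℝ × Y)).comp (snd ℝ (X × ℝ) F))

@[simp] lemma Tm_apply (e : F ≃L[ℝ] ℝ × Y) (p q : ℝ) (z : (X × ℝ) × F) :
    Tm e p q z = (((z.1.1, p * z.1.2 - q * (e z.2).1), q * z.1.2 + p * (e z.2).1), (e z.2).2) := by
  simp [Tm]

open ContinuousLinearMap in
/-- the inverse of the differential of the polar map -/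
noncomputable def Sm (e : F ≃L[ℝ] ℝ × Y) (p q : ℝ) :
    (((X × ℝ) × ℝ) × Y) →L[ℝ] ((X × ℝ) × F) :=
  (((fst ℝ X ℝ).comp ((fst ℝ (X × ℝ) ℝ).comp (fst ℝ ((X × ℝ) × ℝ) Y))).prod
    ((p / (p ^ 2 + q ^ 2)) • ((snd ℝ X ℝ).comp ((fst ℝ (X × ℝ) ℝ).comp (fst ℝ ((X × ℝ) × ℝ) Y)))
      + (q / (p ^ 2 + q ^ 2)) • ((snd ℝ (X × ℝ) ℝ).comp (fst ℝ ((X × ℝ) × ℝ) Y)))).prod
    ((e.symm : ℝ × Y →L[ℝ] F).comp
      (((-(q / (p ^ 2 + q ^ 2))) • ((snd ℝ X ℝ).comp ((fst ℝ (X × ℝ) ℝ).comp (fst ℝ ((X × ℝ) × ℝ) Y)))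
      + (p / (p ^ 2 + q ^ 2)) • ((snd ℝ (X × ℝ) ℝ).comp (fst ℝ ((X × ℝ) × ℝ) Y))).prod
        (snd ℝ ((X × ℝ) × ℝ) Y)))

@[simp] lemma Sm_apply (e : F ≃L[ℝ] ℝ × Y) (p q : ℝ) (z : ((X × ℝ) × ℝ) × Y) :
    Sm e p q z = ((z.1.1.1, p / (p ^ 2 + q ^ 2) * z.1.1.2 + q / (p ^ 2 + q ^ 2) * z.1.2),
      e.symm (-(q / (p ^ 2 + q ^ 2)) * z.1.1.2 + p / (p ^ 2 + q ^ 2) * z.1.2, z.2)) := by
  simp [Sm]

lemma Tm_Sm (e : F ≃L[ℝ] ℝ × Y) {p q : ℝ} (h : p ^ 2 + q ^ 2 ≠ 0) (z : ((X × ℝ) × ℝ) × Y) :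
    Tm e p q (Sm e p q z) = z := by
  obtain ⟨⟨⟨x, u⟩, v⟩, y⟩ := z
  simp only [Tm_apply, Sm_apply, ContinuousLinearEquiv.apply_symm_apply, Prod.mk.injEq, true_and,
    and_true]
  constructor <;> field_simp <;> ring

lemma Sm_Tm (e : F ≃L[ℝ] ℝ × Y) {p q : ℝ} (h : p ^ 2 + q ^ 2 ≠ 0) (z : (X × ℝ) × F) :
    Sm e p q (Tm e p q z) = z := by
  obtain ⟨⟨x, t⟩, w⟩ := z
  simp only [Tm_apply, Sm_apply, Prod.mk.injEq, true_and]
  constructor
  · field_simp; ring
  · have h1 : (-(q / (p ^ 2 + q ^ 2)) * (p * t - q * (e w).1) + p / (p ^ 2 + q ^ 2) * (q * t + p * (e w).1), (e w).2)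
        = e w := by
      ext
      · field_simp; ring
      · rfl
    rw [h1, ContinuousLinearEquiv.symm_apply_apply]

/-- the polar map -/
noncomputable def polar (e : F ≃L[ℝ] ℝ × Y) (z : (X × ℝ) × F) : ((X × ℝ) × ℝ) × Y :=
  (((z.1.1, Real.exp z.1.2 * Real.cos (e z.2).1), Real.exp z.1.2 * Real.sin (e z.2).1), (e z.2).2)

lemma polar_contDiff (e : F ≃L[ℝ] ℝ × Y) : ContDiff ℝ 2 (polar (X := X) e) := by
  unfold polar
  fun_prop

lemma polar_hasFDerivAt (e : F ≃L[ℝ] ℝ × Y) (z : (X × ℝ) × F) :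
    HasFDerivAt (polar (X := X) e)
      (Tm e (Real.exp z.1.2 * Real.cos (e z.2).1) (Real.exp z.1.2 * Real.sin (e z.2).1)) z := by
  have ht : HasFDerivAt (fun z : (X × ℝ) × F => z.1.2) _ z :=
    ((ContinuousLinearMap.snd ℝ X ℝ).comp (ContinuousLinearMap.fst ℝ (X × ℝ) F)).hasFDerivAt
  have hx : HasFDerivAt (fun z : (X × ℝ) × F => z.1.1) _ z :=
    ((ContinuousLinearMap.fst ℝ X ℝ).comp (ContinuousLinearMap.fst ℝ (X × ℝ) F)).hasFDerivAt
  have hθ : HasFDerivAt (fun z : (X × ℝ) × F => (e z.2).1) _ z :=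
    (((ContinuousLinearMap.fst ℝ ℝ Y).comp (e : F →L[ℝ] ℝ × Y)).comp
      (ContinuousLinearMap.snd ℝ (X × ℝ) F)).hasFDerivAt
  have hy : HasFDerivAt (fun z : (X × ℝ) × F => (e z.2).2) _ z :=
    (((ContinuousLinearMap.snd ℝ ℝ Y).comp (e : F →L[ℝ] ℝ × Y)).comp
      (ContinuousLinearMap.snd ℝ (X × ℝ) F)).hasFDerivAt
  have h1 := ht.exp.mul hθ.cos
  have h2 := ht.exp.mul hθ.sin
  have h3 := ((hx.prodMk h1).prodMk h2).prodMk hy
  refine h3.congr_fderiv ?_
  ext v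
  all_goals simp
  all_goals ring


/-- the transported field -/
noncomputable def circ (e : F ≃L[ℝ] ℝ × Y) (M : X × ℝ → ((X × ℝ) × F →L[ℝ] (X × ℝ) × F))
    (b : (X × ℝ) × ℝ) : ((X × ℝ) × ℝ) × Y →L[ℝ] ((X × ℝ) × ℝ) × Y :=
  (Tm e b.1.2 b.2).comp ((M (b.1.1, Real.log (b.1.2 ^ 2 + b.2 ^ 2) / 2)).comp (Sm e b.1.2 b.2))

open Classical in
/-- the transported field, extended by zero to the axis -/
noncomputable def circ0 (e : F ≃L[ℝ] ℝ × Y) (M : X × ℝ → ((X × ℝ) × F →L[ℝ] (X × ℝ) × F))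
    (b : (X × ℝ) × ℝ) : ((X × ℝ) × ℝ) × Y →L[ℝ] ((X × ℝ) × ℝ) × Y :=
  if b.1.2 ^ 2 + b.2 ^ 2 = 0 then 0 else circ e M b

/-- a field on `B × F` depending on the base point only, with good properties -/
structure Good {B F : Type*} [NormedAddCommGroup B] [NormedSpace ℝ B] [NormedAddCommGroup F]
    [NormedSpace ℝ F] (M : B → (B × F →L[ℝ] B × F)) (R : ℝ) : Prop where
  smooth : ContDiff ℝ (⊤ : ℕ∞) M
  bdd : ∀ b, M b ≠ 0 → ‖b‖ ≤ R
  tor : ∀ z a c, tor (fun z : B × F => M z.1) z a c = 0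

lemma Tm_contDiff (e : F ≃L[ℝ] ℝ × Y) :
    ContDiff ℝ (⊤ : ℕ∞) (fun b : (X × ℝ) × ℝ => Tm (X := X) e b.1.2 b.2) := by
  let T0 : ((X × ℝ) × F) →L[ℝ] (((X × ℝ) × ℝ) × Y) := Tm e 0 0
  let T1 : ((X × ℝ) × F) →L[ℝ] (((X × ℝ) × ℝ) × Y) := Tm e 1 0 - Tm e 0 0
  let T2 : ((X × ℝ) × F) →L[ℝ] (((X × ℝ) × ℝ) × Y) := Tm e 0 1 - Tm e 0 0
  have h : (fun b : (X × ℝ) × ℝ => Tm (X := X) e b.1.2 b.2)
      = fun b => T0 + b.1.2 • T1 + b.2 • T2 := by
    funext b
    ext v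
    all_goals simp [T0, T1, T2]
  rw [h]
  have h1 : ContDiff ℝ (⊤ : ℕ∞) (fun b : (X × ℝ) × ℝ => b.1.2) := by fun_prop
  have h2 : ContDiff ℝ (⊤ : ℕ∞) (fun b : (X × ℝ) × ℝ => b.2) := by fun_prop
  exact (contDiff_const.add (h1.smul contDiff_const)).add (h2.smul contDiff_const)

lemma Sm_contDiffAt (e : F ≃L[ℝ] ℝ × Y) (b : (X × ℝ) × ℝ) (hb : b.1.2 ^ 2 + b.2 ^ 2 ≠ 0) :
    ContDiffAt ℝ (⊤ : ℕ∞) (fun b : (X × ℝ) × ℝ => Sm (X := X) e b.1.2 b.2) b := by
  let T0 : (((X × ℝ) × ℝ) × Y) →L[ℝ] ((X × ℝ) × F) := Sm e 0 0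
  let T1 : (((X × ℝ) × ℝ) × Y) →L[ℝ] ((X × ℝ) × F) := Sm e 1 0 - Sm e 0 0
  let T2 : (((X × ℝ) × ℝ) × Y) →L[ℝ] ((X × ℝ) × F) := Sm e 0 1 - Sm e 0 0
  have h : (fun b : (X × ℝ) × ℝ => Sm (X := X) e b.1.2 b.2)
      = fun b => T0 + (b.1.2 / (b.1.2 ^ 2 + b.2 ^ 2)) • T1 + (b.2 / (b.1.2 ^ 2 + b.2 ^ 2)) • T2 := by
    funext b
    have h3 : ∀ (s t : ℝ) (y : Y), e.symm (s, t • y) = e.symm (s, 0) + t • e.symm (0, y) := by
      intro s t y
      rw [← map_smul, ← map_add]; simp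
    apply ContinuousLinearMap.ext
    rintro ⟨⟨⟨x, u⟩, v⟩, y⟩
    set A := b.1.2 / (b.1.2 ^ 2 + b.2 ^ 2) with hA
    set B := b.2 / (b.1.2 ^ 2 + b.2 ^ 2) with hB
    have h4 : e.symm (-B * u + A * v, y)
        = e.symm (0, y) + A • (e.symm (v, y) - e.symm (0, y)) + B • (e.symm (-u, y) - e.symm (0, y)) := by
      rw [← map_sub, ← map_sub, ← map_smul, ← map_smul, ← map_add, ← map_add]
      congr 1
      ext
      · simp; ring
      · simp
    simp only [T0, T1, T2, Sm_apply, add_apply, sub_apply, smul_apply, ← hA, ← hB]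
    ext
    · simp
    · simp
    · rw [neg_mul] at h4
      simp [h4]
  rw [h]
  have h1 : ContDiffAt ℝ (⊤ : ℕ∞) (fun b : (X × ℝ) × ℝ => b.1.2 / (b.1.2 ^ 2 + b.2 ^ 2)) b := by
    refine ContDiffAt.div (f := fun b : (X × ℝ) × ℝ => b.1.2) (g := fun b : (X × ℝ) × ℝ => b.1.2 ^ 2 + b.2 ^ 2) ?_ ?_ hb <;> fun_prop
  have h2 : ContDiffAt ℝ (⊤ : ℕ∞) (fun b : (X × ℝ) × ℝ => b.2 / (b.1.2 ^ 2 + b.2 ^ 2)) b := by
    refine ContDiffAt.div (f := fun b : (X × ℝ) × ℝ => b.2) (g := fun b : (X × ℝ) × ℝ => b.1.2 ^ 2 + b.2 ^ 2) ?_ ?_ hb <;> fun_prop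
  exact (contDiffAt_const.add (h1.smul contDiffAt_const)).add (h2.smul contDiffAt_const)


/-- similarity of operators on possibly different spaces -/
def Sim {V W : Type*} [AddCommGroup V] [Module ℝ V] [AddCommGroup W] [Module ℝ W]
    (S : V →ₗ[ℝ] V) (T : W →ₗ[ℝ] W) : Prop := ∃ g : V ≃ₗ[ℝ] W, ∀ x, g (S x) = T (g x)

lemma Sim.trans {V W Z : Type*} [AddCommGroup V] [Module ℝ V] [AddCommGroup W] [Module ℝ W]
    [AddCommGroup Z] [Module ℝ Z]
    {S : V →ₗ[ℝ] V} {T : W →ₗ[ℝ] W} {U : Z →ₗ[ℝ] Z} (h1 : Sim S T) (h2 : Sim T U) : Sim S U := by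
  obtain ⟨g, hg⟩ := h1
  obtain ⟨g', hg'⟩ := h2
  exact ⟨g.trans g', fun x => by simp [hg, hg']⟩

lemma Sim.symm {V W : Type*} [AddCommGroup V] [Module ℝ V] [AddCommGroup W] [Module ℝ W]
    {S : V →ₗ[ℝ] V} {T : W →ₗ[ℝ] W} (h1 : Sim S T) : Sim T S := by
  obtain ⟨g, hg⟩ := h1
  refine ⟨g.symm, fun x => ?_⟩
  apply g.injective
  rw [hg, LinearEquiv.apply_symm_apply, LinearEquiv.apply_symm_apply]

lemma circ_sim (e : F ≃L[ℝ] ℝ × Y) (M : X × ℝ → ((X × ℝ) × F →L[ℝ] (X × ℝ) × F))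
    (b : (X × ℝ) × ℝ) (hb : b.1.2 ^ 2 + b.2 ^ 2 ≠ 0) :
    Sim (circ e M b : ((X × ℝ) × ℝ) × Y →ₗ[ℝ] ((X × ℝ) × ℝ) × Y)
      (M (b.1.1, Real.log (b.1.2 ^ 2 + b.2 ^ 2) / 2) : (X × ℝ) × F →ₗ[ℝ] (X × ℝ) × F) := by
  refine ⟨{ (Sm (X := X) e b.1.2 b.2 : (((X × ℝ) × ℝ) × Y) →ₗ[ℝ] ((X × ℝ) × F)) with
    invFun := Tm e b.1.2 b.2
    left_inv := Tm_Sm e hb
    right_inv := Sm_Tm e hb }, fun x => ?_⟩
  exact Sm_Tm e hb _


lemma exp_half_log (p q : ℝ) (h : p ^ 2 + q ^ 2 ≠ 0) :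
    p ^ 2 + q ^ 2 = Real.exp (Real.log (p ^ 2 + q ^ 2) / 2) ^ 2 := by
  have h1 : 0 < p ^ 2 + q ^ 2 := lt_of_le_of_ne (by positivity) (Ne.symm h)
  rw [← Real.exp_nat_mul]
  push_cast
  rw [mul_div_cancel₀ _ (two_ne_zero), Real.exp_log h1]

lemma circ0_near (e : F ≃L[ℝ] ℝ × Y) (M : X × ℝ → ((X × ℝ) × F →L[ℝ] (X × ℝ) × F)) (R : ℝ)
    (hM : ∀ b, M b ≠ 0 → ‖b‖ ≤ R) (b : (X × ℝ) × ℝ)
    (hb : b.1.2 ^ 2 + b.2 ^ 2 < Real.exp (-(2 * |R|))) : circ0 e M b = 0 := by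
  unfold circ0
  split_ifs with h0
  · rfl
  · have h1 : M (b.1.1, Real.log (b.1.2 ^ 2 + b.2 ^ 2) / 2) = 0 := by
      by_contra h2
      have h3 := hM _ h2
      have h4 : ‖Real.log (b.1.2 ^ 2 + b.2 ^ 2) / 2‖ ≤ R :=
        le_trans (norm_snd_le (b.1.1, Real.log (b.1.2 ^ 2 + b.2 ^ 2) / 2)) h3
      rw [Real.norm_eq_abs] at h4
      have h5 : 0 < b.1.2 ^ 2 + b.2 ^ 2 := lt_of_le_of_ne (by positivity) (Ne.symm h0)
      have h6 : Real.log (b.1.2 ^ 2 + b.2 ^ 2) < -(2 * |R|) := by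
        rw [Real.log_lt_iff_lt_exp h5]; exact hb
      have h7 := (abs_le.mp h4).1
      have h8 : R ≤ |R| := le_abs_self R
      linarith
    unfold circ
    rw [h1]; simp

lemma circ0_contDiff (e : F ≃L[ℝ] ℝ × Y) (M : X × ℝ → ((X × ℝ) × F →L[ℝ] (X × ℝ) × F)) (R : ℝ)
    (hM : ∀ b, M b ≠ 0 → ‖b‖ ≤ R) (hs : ContDiff ℝ (⊤ : ℕ∞) M) :
    ContDiff ℝ (⊤ : ℕ∞) (circ0 e M) := by
  have hcont : Continuous (fun b : (X × ℝ) × ℝ => b.1.2 ^ 2 + b.2 ^ 2) := by fun_prop
  rw [contDiff_iff_contDiffAt]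
  intro b
  by_cases hb : b.1.2 ^ 2 + b.2 ^ 2 = 0
  · have h1 : circ0 e M =ᶠ[𝓝 b] fun _ => 0 := by
      have h2 : ∀ᶠ b' in 𝓝 b, b'.1.2 ^ 2 + b'.2 ^ 2 < Real.exp (-(2 * |R|)) := by
        apply hcont.continuousAt.eventually_lt continuousAt_const
        simp only [hb]
        exact Real.exp_pos _
      exact h2.mono fun b' hb' => circ0_near e M R hM b' hb'
    exact contDiffAt_const.congr_of_eventuallyEq h1
  · have h1 : circ0 e M =ᶠ[𝓝 b] circ e M := by
      have h2 : ∀ᶠ b' in 𝓝 b, b'.1.2 ^ 2 + b'.2 ^ 2 ≠ 0 := hcont.continuousAt.eventually_ne hb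
      exact h2.mono fun b' hb' => by unfold circ0; rw [if_neg hb']
    refine ContDiffAt.congr_of_eventuallyEq ?_ h1
    unfold circ
    have h3 : ContDiffAt ℝ (⊤ : ℕ∞) (fun b : (X × ℝ) × ℝ => (b.1.1, Real.log (b.1.2 ^ 2 + b.2 ^ 2) / 2)) b := by
      have h4 : ContDiffAt ℝ (⊤ : ℕ∞) (fun b : (X × ℝ) × ℝ => Real.log (b.1.2 ^ 2 + b.2 ^ 2)) b := by
        refine ContDiffAt.log ?_ hb
        fun_prop
      have h5 : ContDiffAt ℝ (⊤ : ℕ∞) (fun b : (X × ℝ) × ℝ => b.1.1) b := by fun_prop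
      exact h5.prodMk (h4.div_const 2)
    have h6 : ContDiffAt ℝ (⊤ : ℕ∞) (fun b : (X × ℝ) × ℝ => M (b.1.1, Real.log (b.1.2 ^ 2 + b.2 ^ 2) / 2)) b :=
      hs.contDiffAt.comp b h3
    exact (Tm_contDiff (X := X) e).contDiffAt.clm_comp (h6.clm_comp (Sm_contDiffAt e b hb))

lemma circ0_bdd (e : F ≃L[ℝ] ℝ × Y) (M : X × ℝ → ((X × ℝ) × F →L[ℝ] (X × ℝ) × F)) (R : ℝ)
    (hM : ∀ b, M b ≠ 0 → ‖b‖ ≤ R) (b : (X × ℝ) × ℝ) (hb : circ0 e M b ≠ 0) :
    ‖b‖ ≤ |R| + Real.exp |R| := by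
  unfold circ0 at hb
  split_ifs at hb with h0
  · exact absurd rfl hb
  · have h1 : M (b.1.1, Real.log (b.1.2 ^ 2 + b.2 ^ 2) / 2) ≠ 0 := by
      intro h2
      apply hb
      unfold circ
      rw [h2]; simp
    have h2 := hM _ h1
    have h3 : ‖b.1.1‖ ≤ R := le_trans (norm_fst_le (b.1.1, Real.log (b.1.2 ^ 2 + b.2 ^ 2) / 2)) h2
    have h4 : ‖Real.log (b.1.2 ^ 2 + b.2 ^ 2) / 2‖ ≤ R :=
      le_trans (norm_snd_le (b.1.1, Real.log (b.1.2 ^ 2 + b.2 ^ 2) / 2)) h2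
    rw [Real.norm_eq_abs] at h4
    have h5 : R ≤ |R| := le_abs_self R
    have h6 : b.1.2 ^ 2 + b.2 ^ 2 ≤ Real.exp |R| ^ 2 := by
      rw [exp_half_log _ _ h0]
      apply pow_le_pow_left₀ (Real.exp_pos _).le
      apply Real.exp_le_exp.mpr
      exact le_trans (le_abs_self _) (le_trans h4 h5)
    have h10 := Real.exp_pos |R|
    have h7 : |b.1.2| ≤ Real.exp |R| := abs_le_of_sq_le_sq (by nlinarith [sq_nonneg b.2]) h10.le
    have h8 : |b.2| ≤ Real.exp |R| := abs_le_of_sq_le_sq (by nlinarith [sq_nonneg b.1.2]) h10.le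
    have h9 : 0 ≤ |R| := abs_nonneg _
    rw [Prod.norm_def, Prod.norm_def, max_le_iff, max_le_iff]
    refine ⟨⟨by linarith, ?_⟩, ?_⟩
    · rw [Real.norm_eq_abs]; linarith
    · rw [Real.norm_eq_abs]; linarith

lemma circ0_rel (e : F ≃L[ℝ] ℝ × Y) (M : X × ℝ → ((X × ℝ) × F →L[ℝ] (X × ℝ) × F))
    (y : (X × ℝ) × F) : (fderiv ℝ (polar (X := X) e) y).comp (M y.1)
          = (circ0 e M (polar e y).1).comp (fderiv ℝ (polar (X := X) e) y) := by
  rw [(polar_hasFDerivAt e y).fderiv]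
  have h0 : (polar e y).1.1.2 ^ 2 + (polar e y).1.2 ^ 2 = Real.exp y.1.2 ^ 2 := by
    simp only [polar]
    have := Real.sin_sq_add_cos_sq (e y.2).1
    linear_combination (Real.exp y.1.2 ^ 2) * this
  have h0' : (polar e y).1.1.2 ^ 2 + (polar e y).1.2 ^ 2 ≠ 0 := by
    rw [h0]; exact pow_ne_zero _ (Real.exp_ne_zero _)
  have h1 : Real.log ((polar e y).1.1.2 ^ 2 + (polar e y).1.2 ^ 2) / 2 = y.1.2 := by
    rw [h0, Real.log_pow, Real.log_exp]; push_cast; ring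
  unfold circ0
  rw [if_neg h0']
  unfold circ
  rw [h1]
  apply ContinuousLinearMap.ext
  intro v
  have h2 := Sm_Tm (X := X) e h0' v
  have h3 : (polar e y).1.1.1 = y.1.1 := rfl
  have h4 : (polar e y).1.1.2 = Real.exp y.1.2 * Real.cos (e y.2).1 := rfl
  have h5 : (polar e y).1.2 = Real.exp y.1.2 * Real.sin (e y.2).1 := rfl
  rw [h4, h5] at h2
  rw [h3, h4, h5]
  rw [ContinuousLinearMap.comp_apply, ContinuousLinearMap.comp_apply, ContinuousLinearMap.comp_apply,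
    ContinuousLinearMap.comp_apply, h2]

lemma circ0_tor (e : F ≃L[ℝ] ℝ × Y) (M : X × ℝ → ((X × ℝ) × F →L[ℝ] (X × ℝ) × F)) (R : ℝ)
    (hM : ∀ b, M b ≠ 0 → ‖b‖ ≤ R) (hs : ContDiff ℝ (⊤ : ℕ∞) M)
    (ht : ∀ z a c, tor (fun z : (X × ℝ) × F => M z.1) z a c = 0)
    (z a c : ((X × ℝ) × ℝ) × Y) : tor (fun z : ((X × ℝ) × ℝ) × Y => circ0 e M z.1) z a c = 0 := by
  have hcont : Continuous (fun b : ((X × ℝ) × ℝ) × Y => b.1.1.2 ^ 2 + b.1.2 ^ 2) := by fun_prop
  by_cases hz : z.1.1.2 ^ 2 + z.1.2 ^ 2 = 0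
  · have h1 : (fun z : ((X × ℝ) × ℝ) × Y => circ0 e M z.1) =ᶠ[𝓝 z] fun _ => 0 := by
      have h2 : ∀ᶠ z' : ((X × ℝ) × ℝ) × Y in 𝓝 z, z'.1.1.2 ^ 2 + z'.1.2 ^ 2 < Real.exp (-(2 * |R|)) := by
        apply hcont.continuousAt.eventually_lt continuousAt_const
        simp only [hz]
        exact Real.exp_pos _
      exact h2.mono fun b' hb' => circ0_near e M R hM b'.1 hb'
    have h3 : fderiv ℝ (fun z : ((X × ℝ) × ℝ) × Y => circ0 e M z.1) z = 0 := by
      rw [h1.fderiv_eq]; simp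
    have h4 : circ0 e M z.1 = 0 := h1.eq_of_nhds
    unfold tor
    simp only [h3, h4]; simp
  · obtain ⟨θ, hθ1, hθ2⟩ : ∃ θ, Real.exp (Real.log (z.1.1.2 ^ 2 + z.1.2 ^ 2) / 2) * Real.cos θ = z.1.1.2 ∧
        Real.exp (Real.log (z.1.1.2 ^ 2 + z.1.2 ^ 2) / 2) * Real.sin θ = z.1.2 := by
      refine ⟨Complex.arg ⟨z.1.1.2, z.1.2⟩, ?_⟩
      have h1 : Real.exp (Real.log (z.1.1.2 ^ 2 + z.1.2 ^ 2) / 2) = ‖(⟨z.1.1.2, z.1.2⟩ : ℂ)‖ := by
        have h2 : Real.exp (Real.log (z.1.1.2 ^ 2 + z.1.2 ^ 2) / 2) ^ 2 = ‖(⟨z.1.1.2, z.1.2⟩ : ℂ)‖ ^ 2 := by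
          rw [← exp_half_log _ _ hz, ← Complex.normSq_eq_norm_sq, Complex.normSq_mk]; ring
        exact (pow_left_inj₀ (Real.exp_pos _).le (norm_nonneg _) two_ne_zero).mp h2
      rw [h1]
      exact ⟨Complex.norm_mul_cos_arg _, Complex.norm_mul_sin_arg _⟩
    -- the preimage point
    obtain ⟨w, hw⟩ : ∃ w : (X × ℝ) × F, w = ((z.1.1.1, Real.log (z.1.1.2 ^ 2 + z.1.2 ^ 2) / 2), e.symm (θ, z.2)) :=
      ⟨_, rfl⟩
    have hpw : polar e w = z := by
      rw [hw]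
      simp only [polar, ContinuousLinearEquiv.apply_symm_apply, hθ1, hθ2]
    have hfdw : fderiv ℝ (polar (X := X) e) w = Tm e z.1.1.2 z.1.2 := by
      rw [(polar_hasFDerivAt e w).fderiv, hw]
      simp only [ContinuousLinearEquiv.apply_symm_apply, hθ1, hθ2]
    have hd1 : DifferentiableAt ℝ (fun z : (X × ℝ) × F => M z.1) w :=
      ((hs.comp contDiff_fst).differentiable (by simp)) w
    have hd2 : DifferentiableAt ℝ (fun z : ((X × ℝ) × ℝ) × Y => circ0 e M z.1) (polar e w) :=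
      (((circ0_contDiff e M R hM hs).comp contDiff_fst).differentiable (by simp)) _
    have hrel := tor_related (polar (X := X) e) (fun z : (X × ℝ) × F => M z.1)
      (fun z : ((X × ℝ) × ℝ) × Y => circ0 e M z.1) w
      (polar_contDiff e).contDiffAt hd1 hd2
      (Filter.Eventually.of_forall (circ0_rel e M)) (Sm e z.1.1.2 z.1.2 a) (Sm e z.1.1.2 z.1.2 c)
    rw [hpw, ht, map_zero] at hrel
    have ha : fderiv ℝ (polar (X := X) e) w (Sm e z.1.1.2 z.1.2 a) = a := by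
      rw [hfdw]; exact Tm_Sm e hz a
    have hc : fderiv ℝ (polar (X := X) e) w (Sm e z.1.1.2 z.1.2 c) = c := by
      rw [hfdw]; exact Tm_Sm e hz c
    rw [ha, hc] at hrel
    exact hrel

theorem circle_step (e : F ≃L[ℝ] ℝ × Y) (M : X × ℝ → ((X × ℝ) × F →L[ℝ] (X × ℝ) × F)) (R : ℝ)
    (hM : Good (B := X × ℝ) (F := F) M R) :
    Good (B := (X × ℝ) × ℝ) (F := Y) (circ0 e M) (|R| + Real.exp |R|) :=
  ⟨circ0_contDiff e M R hM.bdd hM.smooth, circ0_bdd e M R hM.bdd,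
    circ0_tor e M R hM.bdd hM.smooth hM.tor⟩

end circle

section induction

open Module

/-- transport of a good field with trivial fibre -/
lemma base_case {X : Type} [NormedAddCommGroup X] [NormedSpace ℝ X] [FiniteDimensional ℝ X]
    (n : ℕ) (hn : finrank ℝ X + 1 + 0 = n)
    (M : X × ℝ → ((X × ℝ) × (Fin 0 → ℝ) →L[ℝ] (X × ℝ) × (Fin 0 → ℝ))) (R : ℝ)
    (hM : Good (B := X × ℝ) (F := Fin 0 → ℝ) M R) (A : (Fin n → ℝ) →ₗ[ℝ] (Fin n → ℝ))
    (U : Set (X × ℝ)) (hU : IsOpen U) (hne : U.Nonempty)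
    (hs : ∀ b ∈ U, Sim (M b : (X × ℝ) × (Fin 0 → ℝ) →ₗ[ℝ] (X × ℝ) × (Fin 0 → ℝ)) A) :
    ∃ L : (Fin n → ℝ) → (Fin n → ℝ) →L[ℝ] (Fin n → ℝ), ContDiff ℝ (⊤ : ℕ∞) L ∧
      HasCompactSupport L ∧ (∀ x a c, tor L x a c = 0) ∧
      ∃ V : Set (Fin n → ℝ), IsOpen V ∧ V.Nonempty ∧
        ∀ x ∈ V, Sim (L x : (Fin n → ℝ) →ₗ[ℝ] (Fin n → ℝ)) A := by
  have hfin : finrank ℝ ((X × ℝ) × (Fin 0 → ℝ)) = finrank ℝ (Fin n → ℝ) := by
    rw [finrank_prod, finrank_prod]; simp; omega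
  let g : ((X × ℝ) × (Fin 0 → ℝ)) ≃L[ℝ] (Fin n → ℝ) := ContinuousLinearEquiv.ofFinrankEq hfin
  let L : (Fin n → ℝ) → (Fin n → ℝ) →L[ℝ] (Fin n → ℝ) := fun u =>
    (g : ((X × ℝ) × (Fin 0 → ℝ)) →L[ℝ] (Fin n → ℝ)).comp
      ((M (g.symm u).1).comp (g.symm : (Fin n → ℝ) →L[ℝ] ((X × ℝ) × (Fin 0 → ℝ))))
  have hLs : ContDiff ℝ (⊤ : ℕ∞) L := by
    have h1 : ContDiff ℝ (⊤ : ℕ∞) (fun u : Fin n → ℝ => M (g.symm u).1) :=
      hM.smooth.comp (contDiff_fst.comp g.symm.contDiff)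
    exact contDiff_const.clm_comp (h1.clm_comp contDiff_const)
  refine ⟨L, hLs, ?_, ?_, ?_⟩
  · have hK : IsCompact (g '' (Metric.closedBall (0 : (X × ℝ) × (Fin 0 → ℝ)) |R|)) :=
      (isCompact_closedBall _ _).image g.continuous
    refine HasCompactSupport.of_support_subset_isCompact hK ?_
    intro u hu
    have h1 : M (g.symm u).1 ≠ 0 := by
      intro h2
      apply hu
      simp only [L]
      rw [h2]; simp
    have h2 := hM.bdd _ h1
    refine ⟨g.symm u, ?_, g.apply_symm_apply u⟩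
    rw [mem_closedBall_zero_iff, Prod.norm_def, max_le_iff]
    refine ⟨h2.trans (le_abs_self _), ?_⟩
    have h3 : (g.symm u).2 = 0 := Subsingleton.elim _ _
    rw [h3, norm_zero]; exact abs_nonneg _
  · intro x a c
    have hrel := tor_related (g : ((X × ℝ) × (Fin 0 → ℝ)) → (Fin n → ℝ))
      (fun z : (X × ℝ) × (Fin 0 → ℝ) => M z.1) L (g.symm x)
      g.contDiff.contDiffAt
      (((hM.smooth.comp contDiff_fst).differentiable (by simp)) _)
      ((hLs.differentiable (by simp)) _)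
      (Filter.Eventually.of_forall (fun y => by
        rw [g.fderiv]
        apply ContinuousLinearMap.ext
        intro v
        simp [L])) (g.symm a) (g.symm c)
    rw [g.fderiv, hM.tor, map_zero] at hrel
    simpa using hrel
  · refine ⟨g.symm ⁻¹' (Prod.fst ⁻¹' U), (hU.preimage continuous_fst).preimage g.symm.continuous, ?_, ?_⟩
    · obtain ⟨b, hb⟩ := hne
      exact ⟨g (b, 0), by simpa using hb⟩
    · intro x hx
      refine Sim.trans ?_ (hs _ hx)
      exact ⟨g.symm.toLinearEquiv, fun y => by simp [L]⟩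

theorem main_ind : ∀ (m : ℕ) (X : Type) [NormedAddCommGroup X] [NormedSpace ℝ X]
    [FiniteDimensional ℝ X] (n : ℕ) (_ : finrank ℝ X + 1 + m = n)
    (M : X × ℝ → ((X × ℝ) × (Fin m → ℝ) →L[ℝ] (X × ℝ) × (Fin m → ℝ))) (R : ℝ)
    (_ : Good (B := X × ℝ) (F := Fin m → ℝ) M R) (A : (Fin n → ℝ) →ₗ[ℝ] (Fin n → ℝ))
    (U : Set (X × ℝ)) (_ : IsOpen U) (_ : U.Nonempty)
    (_ : ∀ b ∈ U, Sim (M b : (X × ℝ) × (Fin m → ℝ) →ₗ[ℝ] (X × ℝ) × (Fin m → ℝ)) A),
    ∃ L : (Fin n → ℝ) → (Fin n → ℝ) →L[ℝ] (Fin n → ℝ), ContDiff ℝ (⊤ : ℕ∞) L ∧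
      HasCompactSupport L ∧ (∀ x a c, tor L x a c = 0) ∧
      ∃ V : Set (Fin n → ℝ), IsOpen V ∧ V.Nonempty ∧
        ∀ x ∈ V, Sim (L x : (Fin n → ℝ) →ₗ[ℝ] (Fin n → ℝ)) A := by
  intro m
  induction m with
  | zero =>
    intro X _ _ _ n hn M R hM A U hU hne hs
    exact base_case n hn M R hM A U hU hne hs
  | succ m ih =>
    intro X _ _ _ n hn M R hM A U hU hne hs
    have hfin : finrank ℝ (Fin (m + 1) → ℝ) = finrank ℝ (ℝ × (Fin m → ℝ)) := by
      rw [finrank_prod]; simp; omega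
    let e : (Fin (m + 1) → ℝ) ≃L[ℝ] ℝ × (Fin m → ℝ) := ContinuousLinearEquiv.ofFinrankEq hfin
    have hn' : finrank ℝ (X × ℝ) + 1 + m = n := by
      rw [finrank_prod, finrank_self]; omega
    have hgood := circle_step e M R hM
    refine ih (X × ℝ) n hn' (circ0 e M) _ hgood A
      {b | b.1.2 ^ 2 + b.2 ^ 2 ≠ 0 ∧ (b.1.1, Real.log (b.1.2 ^ 2 + b.2 ^ 2) / 2) ∈ U} ?_ ?_ ?_
    · have h1 : IsOpen {b : (X × ℝ) × ℝ | b.1.2 ^ 2 + b.2 ^ 2 ≠ 0} := by
        apply IsOpen.preimage (f := fun b : (X × ℝ) × ℝ => b.1.2 ^ 2 + b.2 ^ 2) _ isOpen_ne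
        fun_prop
      have h2 : ContinuousOn (fun b : (X × ℝ) × ℝ => (b.1.1, Real.log (b.1.2 ^ 2 + b.2 ^ 2) / 2))
          {b : (X × ℝ) × ℝ | b.1.2 ^ 2 + b.2 ^ 2 ≠ 0} := by
        have h3 : ContinuousOn (fun b : (X × ℝ) × ℝ => Real.log (b.1.2 ^ 2 + b.2 ^ 2))
          {b : (X × ℝ) × ℝ | b.1.2 ^ 2 + b.2 ^ 2 ≠ 0} := by
          apply ContinuousOn.log
          · fun_prop
          · intro b hb; exact hb
        exact (by fun_prop : Continuous (fun b : (X × ℝ) × ℝ => b.1.1)).continuousOn.prodMk (h3.div_const 2)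
      exact h2.isOpen_inter_preimage h1 hU
    · obtain ⟨⟨x, t⟩, hx⟩ := hne
      refine ⟨((x, Real.exp t), 0), ?_, ?_⟩
      · simp
      · have : Real.log (Real.exp t ^ 2 + 0 ^ 2) / 2 = t := by
          rw [zero_pow two_ne_zero, add_zero, Real.log_pow, Real.log_exp]; push_cast; ring
        simp only [this]; exact hx
    · rintro b ⟨hb1, hb2⟩
      have h1 : circ0 e M b = circ e M b := by unfold circ0; rw [if_neg hb1]
      rw [h1]
      exact (circ_sim e M b hb1).trans (hs _ hb2)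

end induction


section start

/-- the building block on `(ℝ⁰ × ℝ) × W` -/
noncomputable def Gf {m : ℕ} (l : ℝ → ℝ) (k : ℝ → (Fin m → ℝ) →L[ℝ] (Fin m → ℝ)) (b : Fin m → ℝ) (s : ℝ) :
    ((Fin 0 → ℝ) × ℝ) × (Fin m → ℝ) →L[ℝ] ((Fin 0 → ℝ) × ℝ) × (Fin m → ℝ) :=
  l s • ((ContinuousLinearMap.inl ℝ ((Fin 0 → ℝ) × ℝ) (Fin m → ℝ)).comp
      (ContinuousLinearMap.fst ℝ ((Fin 0 → ℝ) × ℝ) (Fin m → ℝ)))
  + (ContinuousLinearMap.inr ℝ ((Fin 0 → ℝ) × ℝ) (Fin m → ℝ)).comp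
      ((k s).comp (ContinuousLinearMap.snd ℝ ((Fin 0 → ℝ) × ℝ) (Fin m → ℝ)))
  + (1 - Real.smoothTransition s) • ((ContinuousLinearMap.inr ℝ ((Fin 0 → ℝ) × ℝ) (Fin m → ℝ)).comp
      ((ContinuousLinearMap.toSpanSingleton ℝ b).comp
        ((ContinuousLinearMap.snd ℝ (Fin 0 → ℝ) ℝ).comp
          (ContinuousLinearMap.fst ℝ ((Fin 0 → ℝ) × ℝ) (Fin m → ℝ)))))

@[simp] lemma Gf_apply {m : ℕ} (l : ℝ → ℝ) (k : ℝ → (Fin m → ℝ) →L[ℝ] (Fin m → ℝ)) (b : Fin m → ℝ) (s : ℝ)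
    (z : ((Fin 0 → ℝ) × ℝ) × (Fin m → ℝ)) :
    Gf l k b s z = ((z.1.1, l s * z.1.2), k s z.2 + ((1 - Real.smoothTransition s) * z.1.2) • b) := by
  ext i
  · exact i.elim0
  · simp [Gf]
  · simp [Gf]; ring

lemma Gf_contDiff {m : ℕ} (l : ℝ → ℝ) (k : ℝ → (Fin m → ℝ) →L[ℝ] (Fin m → ℝ)) (b : Fin m → ℝ)
    (hl : ContDiff ℝ (⊤ : ℕ∞) l) (hk : ContDiff ℝ (⊤ : ℕ∞) k) : ContDiff ℝ (⊤ : ℕ∞) (Gf l k b) := by
  unfold Gf
  refine ContDiff.add (ContDiff.add (hl.smul contDiff_const) ?_) ?_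
  · exact contDiff_const.clm_comp (hk.clm_comp contDiff_const)
  · exact (contDiff_const.sub Real.smoothTransition.contDiff).smul contDiff_const

lemma Gf_deriv {m : ℕ} (l : ℝ → ℝ) (k : ℝ → (Fin m → ℝ) →L[ℝ] (Fin m → ℝ)) (b : Fin m → ℝ)
    (hl : ContDiff ℝ (⊤ : ℕ∞) l) (hk : ContDiff ℝ (⊤ : ℕ∞) k) (s : ℝ)
    (z : ((Fin 0 → ℝ) × ℝ) × (Fin m → ℝ)) :
    deriv (Gf l k b) s z = ((0, deriv l s * z.1.2),
      deriv k s z.2 - (deriv Real.smoothTransition s * z.1.2) • b) := by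
  have hG : HasDerivAt (Gf l k b) (deriv (Gf l k b) s) s :=
    ((Gf_contDiff l k b hl hk).differentiable (by simp) s).hasDerivAt
  have h1 : HasDerivAt (fun s => Gf l k b s z) (deriv (Gf l k b) s z) s := by
    have := hG.clm_apply (hasDerivAt_const s z)
    rw [map_zero, add_zero] at this
    exact this
  have h2 : HasDerivAt (fun s => Gf l k b s z) ((0, deriv l s * z.1.2),
      deriv k s z.2 - (deriv Real.smoothTransition s * z.1.2) • b) s := by
    have hl' : HasDerivAt l (deriv l s) s := (hl.differentiable (by simp) s).hasDerivAt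
    have hk' : HasDerivAt k (deriv k s) s := (hk.differentiable (by simp) s).hasDerivAt
    have h3 : HasDerivAt (fun s => k s z.2) (deriv k s z.2) s := by
      have := hk'.clm_apply (hasDerivAt_const s z.2)
      simpa using this
    have h4 : HasDerivAt (fun s => ((1 - Real.smoothTransition s) * z.1.2) • b)
        ((-deriv Real.smoothTransition s * z.1.2) • b) s :=
      (((hasDerivAt_st s).const_sub 1).mul_const z.1.2).smul_const b
    have h5 := ((hasDerivAt_const s z.1.1).prodMk (hl'.mul_const z.1.2)).prodMk (h3.add h4)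
    simp only [Gf_apply]
    have h6 : deriv k s z.2 - (deriv Real.smoothTransition s * z.1.2) • b
        = deriv k s z.2 + (-deriv Real.smoothTransition s * z.1.2) • b := by
      rw [neg_mul, neg_smul, sub_eq_add_neg]
    rw [h6]
    exact h5
  exact h1.unique h2

theorem start_good {m : ℕ} (c : ℝ) (K : (Fin m → ℝ) →L[ℝ] (Fin m → ℝ)) (b : Fin m → ℝ)
    (hconn : Conn c K 0 0) :
    ∃ (M : (Fin 0 → ℝ) × ℝ → (((Fin 0 → ℝ) × ℝ) × (Fin m → ℝ) →L[ℝ] ((Fin 0 → ℝ) × ℝ) × (Fin m → ℝ))),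
      Good (B := (Fin 0 → ℝ) × ℝ) (F := Fin m → ℝ) M 2 ∧
      ∀ p : (Fin 0 → ℝ) × ℝ, p ∈ {p : (Fin 0 → ℝ) × ℝ | p.2 ^ 2 < 1} → ∀ z,
        M p z = ((z.1.1, c * z.1.2), K z.2 + z.1.2 • b) := by
  obtain ⟨l, k, hl, hk, h0, h1, hd⟩ := hconn
  have hG := Gf_contDiff l k b hl hk
  refine ⟨fun p => Gf l k b (p.2 ^ 2 - 1), ⟨?_, ?_, ?_⟩, ?_⟩
  · exact hG.comp (by fun_prop)
  · intro p hp
    by_contra hlt
    push Not at hlt
    apply hp
    have h2 : (2:ℝ) < |p.2| := by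
      rw [Prod.norm_def] at hlt
      have h3 : p.1 = 0 := Subsingleton.elim _ _
      rw [h3, norm_zero] at hlt
      rcases lt_max_iff.mp hlt with h4 | h4
      · linarith
      · exact h4
    have h3 : 1 ≤ p.2 ^ 2 - 1 := by
      have : p.2 ^ 2 = |p.2| ^ 2 := (sq_abs _).symm
      rw [this]; nlinarith
    have h4 := h1 _ h3
    apply ContinuousLinearMap.ext
    intro z
    rw [Gf_apply, h4.1, h4.2, Real.smoothTransition.one_of_one_le h3]
    ext i
    · exact i.elim0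
    · simp
    · simp
  · intro z a d
    have hf : HasFDerivAt (fun z : ((Fin 0 → ℝ) × ℝ) × (Fin m → ℝ) => z.1.2 ^ 2 - 1)
        ((2 * z.1.2) • ((ContinuousLinearMap.snd ℝ (Fin 0 → ℝ) ℝ).comp
          (ContinuousLinearMap.fst ℝ ((Fin 0 → ℝ) × ℝ) (Fin m → ℝ)))) z := by
      have ht : HasFDerivAt (fun z : ((Fin 0 → ℝ) × ℝ) × (Fin m → ℝ) => z.1.2) _ z :=
        ((ContinuousLinearMap.snd ℝ (Fin 0 → ℝ) ℝ).comp
          (ContinuousLinearMap.fst ℝ ((Fin 0 → ℝ) × ℝ) (Fin m → ℝ))).hasFDerivAt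
      have := (ht.pow 2).sub_const 1
      simpa using this
    have hGd : HasDerivAt (Gf l k b) (deriv (Gf l k b) (z.1.2 ^ 2 - 1)) (z.1.2 ^ 2 - 1) :=
      (hG.differentiable (by simp) _).hasDerivAt
    have hfd : ∀ v, fderiv ℝ (fun z : ((Fin 0 → ℝ) × ℝ) × (Fin m → ℝ) => Gf l k b (z.1.2 ^ 2 - 1)) z v
        = (2 * z.1.2 * v.1.2) • deriv (Gf l k b) (z.1.2 ^ 2 - 1) := by
      intro v
      have h5 := (hGd.hasFDerivAt.comp z hf).fderiv
      have h6 := congrArg (fun T => T v) h5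
      simp only [Function.comp_def, ContinuousLinearMap.comp_apply] at h6
      rw [h6]
      simp
    have hd' := hd (z.1.2 ^ 2 - 1)
    have hdz : ∀ w, l (z.1.2 ^ 2 - 1) • (deriv k (z.1.2 ^ 2 - 1) w)
        - k (z.1.2 ^ 2 - 1) (deriv k (z.1.2 ^ 2 - 1) w) = 0 := by
      intro w
      have := congrArg (fun T => T w) hd'
      simpa using this
    unfold tor
    rw [hfd, hfd, hfd, hfd]
    simp only [Gf_apply, smul_apply, Gf_deriv l k b hl hk]
    have ha := hdz a.2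
    have hd2 := hdz d.2
    rw [sub_eq_zero] at ha hd2
    ext i
    · exact i.elim0
    · simp; ring
    · simp [← ha, ← hd2]
      ring
  · intro p hp z
    have h3 : p.2 ^ 2 - 1 ≤ 0 := by
      have : p.2 ^ 2 < 1 := hp
      linarith
    have h4 := h0 _ h3
    show Gf l k b (p.2 ^ 2 - 1) z = _
    rw [Gf_apply, h4.1, h4.2, Real.smoothTransition.zero_of_nonpos h3]
    simp

end start


open Module

section algebra

lemma surj_prod {V : Type*} [AddCommGroup V] [Module ℝ V] (A : V →ₗ[ℝ] V) (s : Multiset ℝ)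
    (h : ∀ c ∈ s, Function.Surjective (A - c • (1 : V →ₗ[ℝ] V))) :
    Function.Surjective (aeval A (s.map (fun c => X - C c)).prod) := by
  induction s using Multiset.induction_on with
  | empty => 
    intro x; exact ⟨x, by simp⟩
  | cons c s ih =>
    rw [Multiset.map_cons, Multiset.prod_cons, map_mul]
    have h1 : aeval A (X - C c) = A - c • (1 : V →ₗ[ℝ] V) := by
      rw [map_sub, aeval_X, aeval_C, Algebra.algebraMap_eq_smul_one]
    rw [h1]
    exact (h c (Multiset.mem_cons_self _ _)).comp (ih fun c hc => h c (Multiset.mem_cons_of_mem hc))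

lemma aeval_intertwine {V W : Type*} [AddCommGroup V] [Module ℝ V] [AddCommGroup W] [Module ℝ W]
    (A : V →ₗ[ℝ] V) (K : W →ₗ[ℝ] W) (g : W →ₗ[ℝ] V) (h : ∀ w, g (K w) = A (g w)) (p : ℝ[X]) (w : W) :
    g (aeval K p w) = aeval A p (g w) := by
  induction p using Polynomial.induction_on' with
  | add p q hp hq => simp [hp, hq]
  | monomial n a =>
    rw [aeval_monomial, aeval_monomial]
    simp only [Module.End.mul_apply, Module.algebraMap_end_apply, map_smul]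
    congr 1
    induction n generalizing w with
    | zero => simp
    | succ n ih => rw [pow_succ, pow_succ, Module.End.mul_apply, Module.End.mul_apply, ih, h]

theorem block_form (m : ℕ) (A : (Fin (m + 1) → ℝ) →ₗ[ℝ] (Fin (m + 1) → ℝ)) (s : Multiset ℝ)
    (hA : aeval A (s.map (fun c => X - C c)).prod = 0) :
    ∃ (c : ℝ) (K : (Fin m → ℝ) →ₗ[ℝ] (Fin m → ℝ)) (b : Fin m → ℝ),
      aeval K (s.map (fun c => X - C c)).prod = 0 ∧
      ∀ N : ((Fin 0 → ℝ) × ℝ) × (Fin m → ℝ) →ₗ[ℝ] ((Fin 0 → ℝ) × ℝ) × (Fin m → ℝ),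
        (∀ z, N z = ((z.1.1, c * z.1.2), K z.2 + z.1.2 • b)) → Sim N A := by
  have h1 : ∃ c ∈ s, ¬ Function.Surjective (A - c • (1 : (Fin (m + 1) → ℝ) →ₗ[ℝ] (Fin (m + 1) → ℝ))) := by
    by_contra h
    push Not at h
    have h2 := surj_prod A s h
    rw [hA] at h2
    obtain ⟨x, hx⟩ := h2 (fun _ => 1)
    have := congrFun hx 0
    simp at this
  obtain ⟨c, -, hc⟩ := h1
  have h2 : LinearMap.range (A - c • (1 : (Fin (m + 1) → ℝ) →ₗ[ℝ] (Fin (m + 1) → ℝ))) < ⊤ := by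
    rw [lt_top_iff_ne_top]
    intro h; exact hc (LinearMap.range_eq_top.mp h)
  obtain ⟨ℓ, hℓ0, hℓ⟩ := Submodule.exists_le_ker_of_lt_top _ h2
  have hℓA : ∀ x, ℓ (A x) = c * ℓ x := by
    intro x
    have h3 : (A - c • (1 : (Fin (m + 1) → ℝ) →ₗ[ℝ] (Fin (m + 1) → ℝ))) x ∈ LinearMap.ker ℓ :=
      hℓ (LinearMap.mem_range_self _ x)
    rw [LinearMap.mem_ker] at h3
    simp only [LinearMap.sub_apply, LinearMap.smul_apply, Module.End.one_apply, map_sub, map_smul,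
      smul_eq_mul] at h3
    linarith
  obtain ⟨v1, hv1⟩ : ∃ v, ℓ v ≠ 0 := by
    by_contra h
    push Not at h
    exact hℓ0 (LinearMap.ext h)
  obtain ⟨v0, hv0⟩ : ∃ v, ℓ v = 1 := ⟨(ℓ v1)⁻¹ • v1, by simp [hv1]⟩
  have hdim : finrank ℝ (Fin m → ℝ) = finrank ℝ (LinearMap.ker ℓ) := by
    have h3 := LinearMap.finrank_range_add_finrank_ker ℓ
    have h4 : LinearMap.range ℓ = ⊤ := by
      rw [LinearMap.range_eq_top]
      intro r; exact ⟨r • v0, by simp [hv0]⟩
    rw [h4, finrank_top, finrank_self, Module.finrank_fin_fun] at h3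
    rw [Module.finrank_fin_fun]; omega
  let g : (Fin m → ℝ) ≃ₗ[ℝ] LinearMap.ker ℓ := LinearEquiv.ofFinrankEq _ _ hdim
  have hAk : ∀ x ∈ LinearMap.ker ℓ, A x ∈ LinearMap.ker ℓ := by
    intro x hx
    rw [LinearMap.mem_ker] at hx ⊢
    rw [hℓA, hx, mul_zero]
  have hbk : A v0 - c • v0 ∈ LinearMap.ker ℓ := by
    rw [LinearMap.mem_ker]; simp [hℓA, hv0]
  let K : (Fin m → ℝ) →ₗ[ℝ] (Fin m → ℝ) :=
    (g.symm : LinearMap.ker ℓ →ₗ[ℝ] (Fin m → ℝ)) ∘ₗ (A.restrict hAk) ∘ₗ (g : (Fin m → ℝ) →ₗ[ℝ] LinearMap.ker ℓ)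
  let g' : (Fin m → ℝ) →ₗ[ℝ] (Fin (m + 1) → ℝ) := (LinearMap.ker ℓ).subtype ∘ₗ (g : (Fin m → ℝ) →ₗ[ℝ] LinearMap.ker ℓ)
  have hg' : ∀ w, g' (K w) = A (g' w) := by
    intro w
    simp [g', K]
  have hg'i : Function.Injective g' := by
    intro x y hxy
    apply g.injective
    exact Subtype.ext hxy
  have hℓg : ∀ w, ℓ (g' w) = 0 := fun w => (g w).2
  refine ⟨c, K, g.symm ⟨_, hbk⟩, ?_, ?_⟩
  · apply LinearMap.ext
    intro w
    apply hg'i
    rw [aeval_intertwine A K g' hg', hA]; simp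
  · intro N hN
    let e : (((Fin 0 → ℝ) × ℝ) × (Fin m → ℝ)) ≃ₗ[ℝ] (Fin (m + 1) → ℝ) :=
      LinearEquiv.ofBijective
        ({ toFun := fun z => z.1.2 • v0 + g' z.2
           map_add' := fun x y => by simp [add_smul]; abel
           map_smul' := fun r x => by simp [mul_smul] } :
            (((Fin 0 → ℝ) × ℝ) × (Fin m → ℝ)) →ₗ[ℝ] (Fin (m + 1) → ℝ))
        (by
          constructor
          · rw [← LinearMap.ker_eq_bot, LinearMap.ker_eq_bot']
            rintro ⟨⟨x, t⟩, w⟩ h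
            have h' : t • v0 + g' w = 0 := h
            have ht : t = 0 := by
              have := congrArg ℓ h'
              simpa [hv0, hℓg] using this
            rw [ht, zero_smul, zero_add] at h'
            have hw : w = 0 := hg'i (by rw [h', map_zero])
            rw [ht, hw]
            ext i
            · exact i.elim0
            · rfl
            · rfl
          · intro v
            have hk : v - ℓ v • v0 ∈ LinearMap.ker ℓ := by
              rw [LinearMap.mem_ker]; simp [hv0]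
            refine ⟨((0, ℓ v), g.symm ⟨_, hk⟩), ?_⟩
            show ℓ v • v0 + g' (g.symm ⟨_, hk⟩) = v
            have : g' (g.symm ⟨_, hk⟩) = v - ℓ v • v0 := by simp [g']
            rw [this]; abel)
    have he : ∀ z, e z = z.1.2 • v0 + g' z.2 := fun z => rfl
    refine ⟨e, fun z => ?_⟩
    rw [he, hN, he]
    have h5 : g' (g.symm ⟨_, hbk⟩) = A v0 - c • v0 := by simp [g']
    simp only [map_add, map_smul, hg', h5]
    rw [mul_smul, smul_sub, smul_comm c z.1.2]; abel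

end algebra

section mat

variable {n : ℕ}

lemma exists_multiset (A : Matrix (Fin n) (Fin n) ℝ) (hA : ∀ μ ∈ spectrum ℂ (cplx A), μ.im = 0) :
    ∃ s : Multiset ℝ, aeval (Matrix.toLin' A) (s.map (fun c => X - C c)).prod = 0 := by
  refine ⟨(cplx A).charpoly.roots.map Complex.re, ?_⟩
  have h1 : (((cplx A).charpoly.roots.map Complex.re).map (fun c => X - C c)).prod = A.charpoly := by
    apply Polynomial.map_injective (algebraMap ℝ ℂ) (algebraMap ℝ ℂ).injective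
    have h2 : A.charpoly.map (algebraMap ℝ ℂ) = (cplx A).charpoly := by
      have h3 : cplx A = A.map (algebraMap ℝ ℂ) := rfl
      rw [h3, Matrix.charpoly_map]
    rw [h2]
    have h3 : (cplx A).charpoly = ((cplx A).charpoly.roots.map (fun μ => X - C μ)).prod :=
      (IsAlgClosed.splits _).eq_prod_roots_of_monic (Matrix.charpoly_monic _)
    conv_rhs => rw [h3]
    rw [Polynomial.map_multiset_prod, Multiset.map_map, Multiset.map_map]
    congr 1
    apply Multiset.map_congr rfl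
    intro μ hμ
    have h4 : μ ∈ spectrum ℂ (cplx A) := by
      rw [Matrix.mem_spectrum_iff_isRoot_charpoly]
      exact Polynomial.isRoot_of_mem_roots hμ
    have h5 := hA μ h4
    have h6 : ((μ.re : ℝ) : ℂ) = μ := by
      apply Complex.ext <;> simp [h5]
    simp only [Function.comp_apply, Polynomial.map_sub, map_X, map_C]
    rw [Complex.coe_algebraMap, h6]
  rw [h1]
  have h2 : aeval (Matrix.toLin' A) A.charpoly = Matrix.toLin' (aeval A A.charpoly) := by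
    have := Polynomial.aeval_algHom_apply (Matrix.toLinAlgEquiv' : Matrix (Fin n) (Fin n) ℝ ≃ₐ[ℝ] _) A A.charpoly
    exact this
  rw [h2, Matrix.aeval_self_charpoly, map_zero]

end mat


section statement

open scoped ContDiff Matrix ComplexConjugate

variable {n : ℕ}

lemma sameType_of_conj (A B P : Matrix (Fin n) (Fin n) ℝ) (hP : IsUnit P.det) (h : P * B = A * P) :
    SameType B A := by
  have hmul : ∀ X Y : Matrix (Fin n) (Fin n) ℝ, cplx (X * Y) = cplx X * cplx Y := by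
    intro X Y
    exact Matrix.map_mul (f := algebraMap ℝ ℂ)
  have hPu : IsUnit P := (Matrix.isUnit_iff_isUnit_det _).mpr hP
  obtain ⟨Q, hQ⟩ := hPu.exists_right_inv
  have hQ' : Q * P = 1 := mul_eq_one_comm.mp hQ
  have hone : cplx (1 : Matrix (Fin n) (Fin n) ℝ) = 1 := by
    ext i j
    by_cases hij : i = j
    · subst hij; simp [cplx]
    · simp [cplx, hij]
  let u : (Matrix (Fin n) (Fin n) ℂ)ˣ :=
    ⟨cplx P, cplx Q, by rw [← hmul, hQ, hone], by rw [← hmul, hQ', hone]⟩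
  have hB : cplx B = (↑u⁻¹ : Matrix (Fin n) (Fin n) ℂ) * cplx A * (u : Matrix (Fin n) (Fin n) ℂ) := by
    have h1 : B = Q * A * P := by
      rw [mul_assoc, ← h, ← mul_assoc, hQ', one_mul]
    show cplx B = cplx Q * cplx A * cplx P
    rw [← hmul, ← hmul, ← h1]
  have hspec : spectrum ℂ (cplx B) = spectrum ℂ (cplx A) := by
    rw [hB]; exact spectrum.units_conjugate'
  have hrank : ∀ (μ : ℂ) (k : ℕ), ((cplx B - μ • 1) ^ k).rank = ((cplx A - μ • 1) ^ k).rank := by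
    intro μ k
    have h1 : cplx B - μ • 1 = (↑u⁻¹ : Matrix (Fin n) (Fin n) ℂ) * (cplx A - μ • 1) * u := by
      rw [hB, mul_sub, sub_mul]
      congr 1
      rw [mul_smul_comm, smul_mul_assoc, mul_one, Units.inv_mul]
    have h2 : (cplx B - μ • 1) ^ k = (↑u⁻¹ : Matrix (Fin n) (Fin n) ℂ) * (cplx A - μ • 1) ^ k * u := by
      rw [h1, Units.conj_pow']
    rw [h2, Matrix.rank_mul_eq_left_of_isUnit_det, Matrix.rank_mul_eq_right_of_isUnit_det]
    · exact (Matrix.isUnit_iff_isUnit_det _).mp (Units.isUnit _)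
    · exact (Matrix.isUnit_iff_isUnit_det _).mp (Units.isUnit _)
  refine ⟨Equiv.setCongr hspec, ?_, ?_, ?_⟩
  · intro μ; rfl
  · intro μ ν h; exact h
  · intro μ s _
    unfold jordanBlocks
    rw [hrank, hrank, hrank]; rfl

lemma torsion_zero (𝓛 : (Fin n → ℝ) → (Fin n → ℝ) →L[ℝ] (Fin n → ℝ))
    (hs : ContDiff ℝ (⊤ : ℕ∞) 𝓛) (ht : ∀ x a c, tor 𝓛 x a c = 0)
    (L : (Fin n → ℝ) → Matrix (Fin n) (Fin n) ℝ) (hL : ∀ x v, L x *ᵥ v = 𝓛 x v)
    (v w : (Fin n → ℝ) → (Fin n → ℝ)) (hv : ContDiff ℝ ∞ v) (hw : ContDiff ℝ ∞ w) (x : Fin n → ℝ) :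
    torsion L v w x = 0 := by
  unfold torsion
  simp only [hL]
  have hd : HasFDerivAt 𝓛 (fderiv ℝ 𝓛 x) x := (hs.differentiable (by simp) x).hasFDerivAt
  have hvd : HasFDerivAt v (fderiv ℝ v x) x := (hv.differentiable (by simp) x).hasFDerivAt
  have hwd : HasFDerivAt w (fderiv ℝ w x) x := (hw.differentiable (by simp) x).hasFDerivAt
  have h1 : ∀ u, fderiv ℝ (fun y => 𝓛 y (v y)) x u = 𝓛 x (fderiv ℝ v x u) + fderiv ℝ 𝓛 x u (v x) := by
    intro u
    rw [(hd.clm_apply hvd).fderiv]; simp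
  have h2 : ∀ u, fderiv ℝ (fun y => 𝓛 y (w y)) x u = 𝓛 x (fderiv ℝ w x u) + fderiv ℝ 𝓛 x u (w x) := by
    intro u
    rw [(hd.clm_apply hwd).fderiv]; simp
  have h3 := ht x (v x) (w x)
  unfold tor at h3
  simp only [VectorField.lieBracket, h1, h2, map_sub, map_add] at h3 ⊢
  rw [← h3]; abel

/-- The main construction: on a ball the field is pointwise conjugate to `A`. -/
theorem main_conj (n : ℕ) (hn : 1 ≤ n) (A : Matrix (Fin n) (Fin n) ℝ)
    (hA : ∀ μ ∈ spectrum ℂ (cplx A), μ.im = 0) :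
    ∃ L : (Fin n → ℝ) → Matrix (Fin n) (Fin n) ℝ, IsNijenhuis L ∧ HasCompactSupport L ∧
      ∃ U : Set (Fin n → ℝ), IsOpen U ∧ IsConnected U ∧
        ∀ x ∈ U, ∃ P : Matrix (Fin n) (Fin n) ℝ, IsUnit P.det ∧ P * L x = A * P := by
  obtain ⟨m, rfl⟩ : ∃ m, n = m + 1 := ⟨n - 1, by omega⟩
  obtain ⟨s, hs⟩ := exists_multiset A hA
  obtain ⟨c, K, b, hK, hsim⟩ := block_form m (Matrix.toLin' A) s hs
  have hK' : aeval (LinearMap.toContinuousLinearMap K) (s.map (fun c => X - C c)).prod = 0 := by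
    have h1 : ∀ p : ℝ[X], ∀ w, aeval (LinearMap.toContinuousLinearMap K) p w = aeval K p w := by
      intro p w
      induction p using Polynomial.induction_on' with
      | add p q hp hq => simp [hp, hq]
      | monomial n a =>
        rw [aeval_monomial, aeval_monomial]
        simp only [Algebra.algebraMap_eq_smul_one, smul_mul_assoc, one_mul, smul_apply,
          LinearMap.smul_apply]
        congr 1
        induction n generalizing w with
        | zero => simp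
        | succ n ih =>
          rw [pow_succ, pow_succ, Module.End.mul_apply, mul_apply_eq_comp, ih]
          rfl
    apply ContinuousLinearMap.ext
    intro w
    rw [h1, hK]; rfl
  have hconn := conn_zero _ s (LinearMap.toContinuousLinearMap K) le_rfl hK' c
  obtain ⟨M, hM, hMU⟩ := start_good c (LinearMap.toContinuousLinearMap K) b hconn
  obtain ⟨𝓛, h1, h2, h3, V, hV1, ⟨x0, hx0⟩, hV3⟩ := main_ind m (Fin 0 → ℝ) (m + 1)
    (by rw [Module.finrank_fin_fun]; omega) M 2 hM (Matrix.toLin' A)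
    {p : (Fin 0 → ℝ) × ℝ | p.2 ^ 2 < 1}
    (by
      apply isOpen_lt _ continuous_const
      fun_prop)
    ⟨(0, 0), by simp⟩
    (fun p hp => hsim _ (hMU p hp))
  have hLv : ∀ x v, (LinearMap.toMatrix' (𝓛 x : (Fin (m + 1) → ℝ) →ₗ[ℝ] (Fin (m + 1) → ℝ))) *ᵥ v = 𝓛 x v := by
    intro x v
    rw [← Matrix.toLin'_apply, Matrix.toLin'_toMatrix']; rfl
  refine ⟨fun x => LinearMap.toMatrix' (𝓛 x : (Fin (m + 1) → ℝ) →ₗ[ℝ] (Fin (m + 1) → ℝ)), ⟨?_, ?_⟩, ?_, ?_⟩
  · intro i j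
    have h4 : (fun x => LinearMap.toMatrix' (𝓛 x : (Fin (m + 1) → ℝ) →ₗ[ℝ] (Fin (m + 1) → ℝ)) i j)
        = fun x => 𝓛 x (Pi.single j 1) i := by
      funext x
      rw [LinearMap.toMatrix'_apply]
      rfl
    rw [h4]
    have h5 : ContDiff ℝ (⊤ : ℕ∞) (fun x => 𝓛 x (Pi.single j 1)) := h1.clm_apply contDiff_const
    exact contDiff_pi.mp h5 i
  · intro v w hv hw x
    exact torsion_zero 𝓛 h1 h3 _ hLv v w hv hw x
  · exact h2.comp_left (g := fun T : (Fin (m + 1) → ℝ) →L[ℝ] (Fin (m + 1) → ℝ) =>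
      LinearMap.toMatrix' (T : (Fin (m + 1) → ℝ) →ₗ[ℝ] (Fin (m + 1) → ℝ))) (by simp)
  · obtain ⟨ε, hε, hball⟩ := Metric.isOpen_iff.mp hV1 x0 hx0
    refine ⟨Metric.ball x0 ε, Metric.isOpen_ball, ⟨⟨x0, Metric.mem_ball_self hε⟩,
      (convex_ball x0 ε).isPreconnected⟩, ?_⟩
    intro x hx
    obtain ⟨g, hg⟩ := hV3 x (hball hx)
    refine ⟨LinearMap.toMatrix' (g : (Fin (m + 1) → ℝ) →ₗ[ℝ] (Fin (m + 1) → ℝ)), ?_, ?_⟩
    · rw [← LinearMap.det_toLin', Matrix.toLin'_toMatrix']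
      exact LinearEquiv.isUnit_det' g
    · apply Matrix.toLin'.injective
      rw [Matrix.toLin'_mul, Matrix.toLin'_mul, Matrix.toLin'_toMatrix', Matrix.toLin'_toMatrix']
      apply LinearMap.ext
      intro v
      exact hg v

/-- **Every algebraic type all of whose eigenvalues are real is realisable.**
Moreover the field can be chosen pointwise similar over `ℝ` to the given matrix on a domain. -/
theorem result (n : ℕ) (hn : 1 ≤ n) (A : Matrix (Fin n) (Fin n) ℝ)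
    (hA : ∀ μ ∈ spectrum ℂ (cplx A), μ.im = 0) :
    Realisable A ∧
    ∃ L : (Fin n → ℝ) → Matrix (Fin n) (Fin n) ℝ, IsNijenhuis L ∧ HasCompactSupport L ∧
      ∃ U : Set (Fin n → ℝ), IsOpen U ∧ IsConnected U ∧
        ∀ x ∈ U, ∃ P : Matrix (Fin n) (Fin n) ℝ, IsUnit P.det ∧ P * L x = A * P := by
  have h := main_conj n hn A hA
  refine ⟨?_, h⟩
  obtain ⟨L, h1, h2, U, h3, h4, h5⟩ := h
  refine ⟨L, h1, h2, U, h3, h4, fun x hx => ?_⟩
  obtain ⟨P, hP, hPL⟩ := h5 x hx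
  exact sameType_of_conj A (L x) P hP hPL

end statement

end Pool.Agent.Results.MP_17a4b7_gt.RealTypes
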